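import Pool.Agent.H940.O.OutO

set_option autoImplicit false
set_option linter.unusedSectionVars false
set_option linter.unusedVariables false

/-! # Boxes, with orders -/

namespace Pool.Agent.H940.O

open MvPolynomial Pool.Agent.W428.MOT Pool.Agent.TH192.MT Pool.Agent.TH192.DT Pool.Agent.Q49.CO
open Pool.Agent.Q57.QM Pool.Agent.Y229 Pool.Agent.Q57.MC Pool.Agent.Q57.MD
open Pool.Agent.H940.Z Pool.Agent.H940.G

section

variable {K : Type} [Field K] {σ : Type} [Fintype σ] [DecidableEq σ] {R : Type} [CommRing R]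
  (M : Meas K R)

/-- one step -/
theorem cyl_step {v : R} (hv : M.L * v = 1) (f : MvPolynomial σ K) (d : ℕ)
    (hf : ∀ γ : Arc K σ, aeval (fun i => PowerSeries.X * γ i) f = PowerSeries.X ^ d * aeval γ f)
    {P : Arc K σ → Prop} {q : ℕ} (hP : Cyl P q) :
    VS M v P f = VS M v (fun γ => P γ ∧ ¬ Or γ) f +
      PowerSeries.C (v ^ Fintype.card σ) *
      (PowerSeries.C (vo M v fun γ => P fun i => PowerSeries.X * γ i) *
        ∑ j ∈ Finset.range d, PowerSeries.X ^ j +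
        PowerSeries.X ^ d * VS M v (fun γ => P fun i => PowerSeries.X * γ i) f) := by
  rw [VS_split M hv hP (cyl_Or q) f, add_comm]
  congr 1
  rw [VS_tt M hv (A := 1) (B := 1) (mul_one _) (mul_one _) (fun _ => 1) f d (by
    intro γ
    rw [tt_one, hf]) (hP.and (cyl_Or _)) (by
    rintro γ ⟨_, h⟩ i
    rw [la_one]
    intro j hj
    have : j = 0 := by omega
    rw [this]
    exact h i)]
  have h2 : (fun γ : Arc K σ => P (tt 1 1 (fun _ => 1) γ) ∧ Or (tt 1 1 (fun _ => 1) γ)) =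
      fun γ => P fun i => PowerSeries.X * γ i := by
    refine funext fun γ => propext ?_
    rw [tt_one]
    refine ⟨fun h => h.1, fun h => ⟨h, fun i => ?_⟩⟩
    rw [PowerSeries.coeff_zero_X_mul]
  rw [h2]
  simp only [Finset.sum_const, Finset.card_univ, smul_eq_mul, mul_one]

theorem box_X (A : Matrix σ σ K) (m : σ → ℕ) (γ : Arc K σ) :
    Box A m (fun i => PowerSeries.X * γ i) ↔ Box A (fun i => m i - 1) γ := by
  unfold Box
  rw [la_X]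
  refine forall_congr' fun i => ?_
  rw [← pow_one (PowerSeries.X : PowerSeries (AlgebraicClosure K)), vn_X_pow_iff]

/-- iteration -/
theorem iter_o {u : Rˣ} (hL : M.L = (u : R)) {a b : ℤ} (f : MvPolynomial σ K) (d : ℕ)
    (hf : ∀ γ : Arc K σ, aeval (fun i => PowerSeries.X * γ i) f = PowerSeries.X ^ d * aeval γ f)
    (W : ℕ → Arc K σ → Prop) (q : ℕ) (hc : ∀ k, Cyl (W k) q)
    (hW : ∀ k γ, W k (fun i => PowerSeries.X * γ i) ↔ W (k + 1) γ) (K₀ : ℕ)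
    (hK : ∀ γ, ¬ W K₀ γ) (m : ℕ)
    (hout : ∀ k, Od u a b m (VS M ((u⁻¹ : Rˣ) : R) (fun γ => W k γ ∧ ¬ Or γ) f)) :
    Od u a b m (VS M ((u⁻¹ : Rˣ) : R) (W 0) f) := by
  have hv : M.L * ((u⁻¹ : Rˣ) : R) = 1 := by rw [hL, Units.mul_inv]
  have key : ∀ j k, k + j = K₀ → Od u a b m (VS M ((u⁻¹ : Rˣ) : R) (W k) f) := by
    intro j
    induction j with
    | zero =>
      intro k hk
      rw [add_zero] at hk
      subst hk
      rw [VS_false M hv hK f]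
      exact Od.zero m
    | succ j ih =>
      intro k hk
      have h1 := ih (k + 1) (by omega)
      rw [cyl_step M hv f d hf (hc k)]
      have h2 : (fun γ : Arc K σ => W k fun i => PowerSeries.X * γ i) = W (k + 1) :=
        funext fun γ => propext (hW k γ)
      rw [h2]
      refine (hout k).add (Od.mul_mem (rat_C _ _) (Od.add (Od.of_mem ?_ m)
        (Od.mul_mem (Subalgebra.pow_mem _ (rat_X _) _) h1)))
      exact Subalgebra.mul_mem _ (rat_C _ _)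
        (Subalgebra.sum_mem _ fun j _ => Subalgebra.pow_mem _ (rat_X _) _)
  exact key K₀ 0 (Nat.zero_add _)

end

variable {n : ℕ} {f : MvPolynomial (Fin (n + 1)) ℂ} {d : ℕ} (hd : 2 ≤ d) (hf : f.IsHomogeneous d)
  (hf0 : f ≠ 0) (H : LH f) {M : Meas ℂ (MK ℂ)} (hL : M.L = ((Lu ℂ : (MK ℂ)ˣ) : MK ℂ))
  {a b : ℤ} (hb : 0 < b)
include hd hf hf0 H hL hb

/-- the condition on a box near a line -/
def NB (A : Matrix (Fin (n + 1)) (Fin (n + 1)) ℂ) (m : Fin (n + 1) → ℕ)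
    (s : Fin (n + 1) × (Fin n → ℂ)) : Prop := ∀ i, m i = 0 ∨ A.mulVec (pt s) i = 0

/-- **Boolean combinations of three boxes.** -/
theorem box_o {m : ℕ} (hm : e1 a b ≤ m) (A : Matrix (Fin (n + 1)) (Fin (n + 1)) ℂ)
    (Φ : Prop → Prop → Prop → Prop)
    (hΦ : ∀ (P Q S : Arc ℂ (Fin (n + 1)) → Prop) (q : ℕ), Cyl P q → Cyl Q q → Cyl S q →
      Cyl (fun γ => Φ (P γ) (Q γ) (S γ)) q)
    (hΦ0 : ¬ Φ True True True) (m₁ m₂ m₃ : Fin (n + 1) → ℕ)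
    (hD : ∀ s : Fin (n + 1) × (Fin n → ℂ), Cn s → Sg f (pt s) →
      Od (Lu ℂ) a b m (VS M (((Lu ℂ)⁻¹ : (MK ℂ)ˣ) : MK ℂ) (Tb s.1 s.2 1) f) ∨
      ∀ k : ℕ, ¬ Φ (NB A (fun i => m₁ i - k) s) (NB A (fun i => m₂ i - k) s)
        (NB A (fun i => m₃ i - k) s)) :
    Od (Lu ℂ) a b m (VS M (((Lu ℂ)⁻¹ : (MK ℂ)ˣ) : MK ℂ)
      (fun γ => Φ (Box A m₁ γ) (Box A m₂ γ) (Box A m₃ γ)) f) := by
  classical
  have hv : M.L * (((Lu ℂ)⁻¹ : (MK ℂ)ˣ) : MK ℂ) = 1 := by rw [hL, Units.mul_inv]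
  have hsc : ∀ γ : Arc ℂ (Fin (n + 1)), aeval (fun i => PowerSeries.X * γ i) f =
      PowerSeries.X ^ d * aeval γ f := fun γ => aeval_homog f d hf γ _
  set Q : ℕ := ∑ i, m₁ i + ∑ i, m₂ i + ∑ i, m₃ i + 1 with hQ
  have hle : ∀ (e : Fin (n + 1) → ℕ) i, e i ≤ ∑ i, e i := fun e i =>
    Finset.single_le_sum (fun i _ => Nat.zero_le (e i)) (Finset.mem_univ i)
  have hcyl : ∀ (e : Fin (n + 1) → ℕ) (k : ℕ), ∑ i, e i ≤ Q → Cyl (Box A fun i => e i - k) Q := by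
    intro e k he
    refine (cyl_Box A _).mono (le_trans (Finset.sum_le_sum fun i _ => ?_) he)
    omega
  have hW : ∀ (k : ℕ) (γ : Arc ℂ (Fin (n + 1))) (e : Fin (n + 1) → ℕ),
      Box A (fun i => e i - k) (fun i => PowerSeries.X * γ i) ↔
        Box A (fun i => e i - (k + 1)) γ := by
    intro k γ e
    rw [box_X]
    rfl
  have hW0 : (fun γ : Arc ℂ (Fin (n + 1)) => Φ (Box A m₁ γ) (Box A m₂ γ) (Box A m₃ γ)) =
      (fun (k : ℕ) (γ : Arc ℂ (Fin (n + 1))) => Φ (Box A (fun i => m₁ i - k) γ)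
        (Box A (fun i => m₂ i - k) γ) (Box A (fun i => m₃ i - k) γ)) 0 := rfl
  rw [hW0]
  refine iter_o M hL f d hsc (fun (k : ℕ) (γ : Arc ℂ (Fin (n + 1))) =>
    Φ (Box A (fun i => m₁ i - k) γ) (Box A (fun i => m₂ i - k) γ) (Box A (fun i => m₃ i - k) γ))
    Q (fun k => hΦ _ _ _ Q (hcyl _ k (by omega)) (hcyl _ k (by omega)) (hcyl _ k (by omega)))
    (fun k γ => ?_) Q (fun γ hγ => ?_) m fun k => ?_
  · simp only [hW]
  · apply hΦ0
    have h1 : ∀ e : Fin (n + 1) → ℕ, ∑ i, e i ≤ Q → Box A (fun i => e i - Q) γ = True := by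
      intro e he
      refine propext ⟨fun _ => trivial, fun _ i j hj => ?_⟩
      have := hle e i
      have hj' : j < e i - Q := hj
      omega
    simp only [h1 m₁ (by omega), h1 m₂ (by omega), h1 m₃ (by omega)] at hγ
    exact hγ
  · have hnear : ∀ (s : Fin (n + 1) × (Fin n → ℂ)) (γ : Arc ℂ (Fin (n + 1))), Tb s.1 s.2 Q γ →
        ∀ e : Fin (n + 1) → ℕ, ∑ i, e i ≤ Q →
          (Box A (fun i => e i - k) γ) = NB A (fun i => e i - k) s := by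
      intro s γ h e he
      refine propext (box_near A _ s Q (fun i => ?_) h)
      have := hle e i
      omega
    refine out_o hd hf hf0 H hL hb hm (q := Q) ((hΦ _ _ _ Q (hcyl _ k (by omega))
      (hcyl _ k (by omega)) (hcyl _ k (by omega))).and (cyl_Or _).not)
      (fun γ h => h.2) Q (by omega) fun s hs1 hs2 => ?_
    have hor : ∀ γ, Tb s.1 s.2 Q γ → ¬ Or γ := fun γ h h2 => h.1 (h2 s.1)
    by_cases hc : Φ (NB A (fun i => m₁ i - k) s) (NB A (fun i => m₂ i - k) s)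
        (NB A (fun i => m₃ i - k) s)
    · right
      refine ⟨fun γ h => ⟨?_, hor γ h⟩, (hD s hs1 hs2).resolve_right fun h => h k hc⟩
      simp only [hnear s γ h m₁ (by omega), hnear s γ h m₂ (by omega), hnear s γ h m₃ (by omega)]
      exact hc
    · left
      intro γ h h2
      apply hc
      have h3 := h2.1
      simp only [hnear s γ h m₁ (by omega), hnear s γ h m₂ (by omega),
        hnear s γ h m₃ (by omega)] at h3
      exact h3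

/-- the complement of a box -/
theorem nbox_o {m : ℕ} (hm : e1 a b ≤ m) (A : Matrix (Fin (n + 1)) (Fin (n + 1)) ℂ)
    (e : Fin (n + 1) → ℕ)
    (hD : ∀ s : Fin (n + 1) × (Fin n → ℂ), Cn s → Sg f (pt s) →
      Od (Lu ℂ) a b m (VS M (((Lu ℂ)⁻¹ : (MK ℂ)ˣ) : MK ℂ) (Tb s.1 s.2 1) f)) :
    Od (Lu ℂ) a b m (VS M (((Lu ℂ)⁻¹ : (MK ℂ)ˣ) : MK ℂ) (fun γ => ¬ Box A e γ) f) :=
  box_o hd hf hf0 H hL hb hm A (fun x _ _ => ¬ x) (fun P Q S q hP _ _ => hP.not)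
    (fun h => h trivial) e e e fun s hs1 hs2 => Or.inl (hD s hs1 hs2)

/-- the arcs outside of the origin -/
theorem nor_o {m : ℕ} (hm : e1 a b ≤ m)
    (hD : ∀ s : Fin (n + 1) × (Fin n → ℂ), Cn s → Sg f (pt s) →
      Od (Lu ℂ) a b m (VS M (((Lu ℂ)⁻¹ : (MK ℂ)ˣ) : MK ℂ) (Tb s.1 s.2 1) f)) :
    Od (Lu ℂ) a b m (VS M (((Lu ℂ)⁻¹ : (MK ℂ)ˣ) : MK ℂ)
      (fun γ : Arc ℂ (Fin (n + 1)) => ¬ Or γ) f) :=
  out_o hd hf hf0 H hL hb hm (q := 1) (cyl_Or _).not (fun γ h => h) 1 le_rfl fun s hs1 hs2 =>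
    Or.inr ⟨fun γ h h2 => h.1 (h2 s.1), hD s hs1 hs2⟩

open Classical in
/-- **The scalars.** -/
theorem scalar_o {m : ℕ} (hm : e1 a b ≤ m)
    (hD : ∀ s : Fin (n + 1) × (Fin n → ℂ), Cn s → Sg f (pt s) →
      Od (Lu ℂ) a b m (VS M (((Lu ℂ)⁻¹ : (MK ℂ)ˣ) : MK ℂ) (Tb s.1 s.2 1) f)) :
    Od (Lu ℂ) a b (m + if -((n + 1 : ℕ) : ℤ) * b = a * d then 1 else 0)
      (VS M (((Lu ℂ)⁻¹ : (MK ℂ)ˣ) : MK ℂ) (fun _ : Arc ℂ (Fin (n + 1)) => True) f) := by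
  have hv : M.L * (((Lu ℂ)⁻¹ : (MK ℂ)ˣ) : MK ℂ) = 1 := by rw [hL, Units.mul_inv]
  have h1 := cyl_step M hv f d (fun γ => aeval_homog f d hf γ _) (Cyl.const True 0)
  simp only [true_and] at h1
  refine Od.geoI (ν := n + 1) (N := d) (Nat.succ_pos n) (by omega) hb
    (W := VS M (((Lu ℂ)⁻¹ : (MK ℂ)ˣ) : MK ℂ) (fun γ : Arc ℂ (Fin (n + 1)) => ¬ Or γ) f +
      PowerSeries.C ((((Lu ℂ)⁻¹ : (MK ℂ)ˣ) : MK ℂ) ^ (n + 1)) *
      (PowerSeries.C (vo M (((Lu ℂ)⁻¹ : (MK ℂ)ˣ) : MK ℂ) fun _ : Arc ℂ (Fin (n + 1)) => True) *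
        ∑ j ∈ Finset.range d, PowerSeries.X ^ j)) ?_ ?_
  · exact (nor_o hd hf hf0 H hL hb hm hD).add (od_CX _ (od_geo _ _ _))
  · rw [Fintype.card_fin] at h1
    linear_combination h1

/-- **A second torus.** -/
theorem second_o {m : ℕ} (hm : e1 a b ≤ m)
    (hD : ∀ s : Fin (n + 1) × (Fin n → ℂ), Cn s → Sg f (pt s) →
      Od (Lu ℂ) a b m (VS M (((Lu ℂ)⁻¹ : (MK ℂ)ˣ) : MK ℂ) (Tb s.1 s.2 1) f))
    {A B : Matrix (Fin (n + 1)) (Fin (n + 1)) ℂ} (hAB : A * B = 1) (hBA : B * A = 1)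
    (w : Fin (n + 1) → ℕ) (e : ℕ) (he : 0 < e) (hw : 0 < ∑ i, w i)
    (hfe : ∀ γ : Arc ℂ (Fin (n + 1)), aeval (tt A B w γ) f = PowerSeries.X ^ e * aeval γ f)
    (hne : -((∑ i, w i : ℕ) : ℤ) * b ≠ a * e) :
    Od (Lu ℂ) a b m
      (VS M (((Lu ℂ)⁻¹ : (MK ℂ)ˣ) : MK ℂ) (fun _ : Arc ℂ (Fin (n + 1)) => True) f) := by
  have hv : M.L * (((Lu ℂ)⁻¹ : (MK ℂ)ˣ) : MK ℂ) = 1 := by rw [hL, Units.mul_inv]
  have h1 := VS_split M hv (Cyl.const True 0) (cyl_Box A w) f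
  simp only [true_and] at h1
  have h2 := VS_tt M hv hAB hBA w f e hfe (cyl_Box A w) fun γ hγ => hγ
  have h3 : (fun γ : Arc ℂ (Fin (n + 1)) => Box A w (tt A B w γ)) = fun _ => True := by
    refine funext fun γ => propext ⟨fun _ => trivial, fun _ i => ?_⟩
    rw [la_tt hAB]
    unfold ts
    rw [vn_iff]
    exact Dvd.intro _ rfl
  rw [h3] at h2
  refine Od.geo (ν := ∑ i, w i) (N := e) hw he hne
    (W := VS M (((Lu ℂ)⁻¹ : (MK ℂ)ˣ) : MK ℂ) (fun γ : Arc ℂ (Fin (n + 1)) => ¬ Box A w γ) f +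
      PowerSeries.C ((((Lu ℂ)⁻¹ : (MK ℂ)ˣ) : MK ℂ) ^ (∑ i, w i)) *
      (PowerSeries.C (vo M (((Lu ℂ)⁻¹ : (MK ℂ)ˣ) : MK ℂ) fun _ : Arc ℂ (Fin (n + 1)) => True) *
        ∑ j ∈ Finset.range e, PowerSeries.X ^ j)) ?_ ?_
  · exact (nbox_o hd hf hf0 H hL hb hm A w hD).add (od_CX _ (od_geo _ _ _))
  · linear_combination h1 + h2

end Pool.Agent.H940.O
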