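import Pool.Agent.H940.G.Defs
import Pool.Graph.R_seed8.TH192.MU.TDefs
import Pool.Graph.R_seed8.Y230.TH.TopDefs

set_option autoImplicit false

/-! # Atoms of the class -/

namespace Pool.Agent.H940.O

open Pool.Agent.W428.MOT (MK)
open Pool.Agent.TH192.MU (zetaId IsTopZeta)
open Pool.Agent.W574.SM (IsFunctionalEq)
open Pool.Agent.W574.RO (Fam)
open Pool.Agent.H940.G (germAt WHG)

/-- `A` is the family of one form `f ≠ 0` of degree `d ≥ 2` in `n + 1` variables whose projective
hypersurface has only isolated weighted homogeneous singularities, and `Z` is its topological zeta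
function. -/
def FormAtom {R : Type} [CommRing R] (E : MK ℂ →+* R) (ε : R →+* ℂ) (A : Fam)
    (Z : RatFunc ℂ) : Prop :=
  ∃ (n d : ℕ) (f : MvPolynomial (Fin (n + 1)) ℂ), f ≠ 0 ∧ 2 ≤ d ∧ f.IsHomogeneous d ∧
    (∀ (i : Fin (n + 1)) (q : Fin n → ℂ),
      (∀ j, MvPolynomial.eval (i.insertNth 1 q) (MvPolynomial.pderiv j f) = 0) →
      ∃ (g : MvPolynomial (Fin n) ℂ) (w : Fin n → ℕ) (N : ℕ)
        (η : Fin n → MvPowerSeries (Fin n) ℂ), WHG (germAt i q f) g w N η) ∧
    IsTopZeta E ε (zetaId fun _ : Fin 1 => f) Z ∧ A = ⟨Fin (n + 1), Fin 1, fun _ => f⟩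

/-- The family `A` generates a nonzero ideal in finitely many variables, and with `Z` the
stronger form (Q2) holds: `b Z` is a polynomial if `b` satisfies a functional equation of `A`. The poles of
`Z` have negative real parts (all poles of topological zeta functions are negative rational numbers). -/
structure HasQ2 (A : Fam) (Z : RatFunc ℂ) : Prop where
  fin : Finite A.σ
  ne : ∃ j, A.f j ≠ 0
  neg : ∀ s : ℂ, Z.denom.eval s = 0 → s.re < 0
  q2 : ∀ b : Polynomial ℂ, IsFunctionalEq A.f b →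
    ∃ P : Polynomial ℂ, algebraMap (Polynomial ℂ) (RatFunc ℂ) b * Z =
      algebraMap (Polynomial ℂ) (RatFunc ℂ) P

/-- The atoms of the class of hypersurfaces: the forms (`FormAtom`) and the hypersurfaces for which the
stronger form (Q2) holds. -/
def HypAtom {R : Type} [CommRing R] (E : MK ℂ →+* R) (ε : R →+* ℂ) (A : Fam)
    (Z : RatFunc ℂ) : Prop :=
  FormAtom E ε A Z ∨
    ∃ (τ : Type) (g : MvPolynomial τ ℂ), A = ⟨τ, Fin 1, fun _ => g⟩ ∧ HasQ2 A Z

end Pool.Agent.H940.O
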