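import Pool.Agent.H940.O.Q2
import Pool.Agent.H940.O.Defs
import Pool.Graph.R_pool_sql_team_seeded_efc1946e.K1H20.TQ.Main

set_option autoImplicit false
set_option linter.unusedSectionVars false
set_option linter.unusedVariables false

/-! # Sums, products and Thom-Sebastiani sums -/

namespace Pool.Agent.H940.O

open Pool.Agent.W428.MOT
open Pool.Agent.TH192.MU (zetaId IsTopZeta)
open Pool.Agent.W574.SM (IsFunctionalEq)
open Pool.Agent.W574.RO (Fam)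
open Pool.Agent.Y230.TH (TT)
open Pool.Agent.K1H20.TQ
open Pool.Agent.H940.G (LH)

theorem has_Cq (A : Fam) (Z : RatFunc ℂ) (h : HasQ2 A Z) : Cq A Z :=
  Cq_of_QQ A Z h.fin h.ne h.neg h.q2

variable {R : Type} [CommRing R] [IsDomain R] (E : MK ℂ →+* R) (ε : R →+* ℂ)
  (hε : ε (E ((Lu ℂ : (MK ℂ)ˣ) : MK ℂ)) = 1) (hE : E ((Lu ℂ : (MK ℂ)ˣ) : MK ℂ) ≠ 1)
include hε hE

theorem form_Cq (A : Fam) (Z : RatFunc ℂ) (h : FormAtom E ε A Z) : Cq A Z := by
  obtain ⟨n, d, f, hf0, hd, hf, H, hZ, rfl⟩ := h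
  refine Cq_of_QQ _ Z (inferInstanceAs (Finite (Fin (n + 1)))) ⟨(0 : Fin 1), hf0⟩ (fun s hs => ?_)
    fun b hb => ?_
  · obtain ⟨a, b, ha, hb, rfl⟩ := pole_rat hd hf hf0 H E ε hε hE Z (Or.inl hZ) s hs
    have h1 : ((a : ℂ) / b).re = (a : ℝ) / b := by
      have h2 : ((a : ℂ) / b) = (((a : ℝ) / b : ℝ) : ℂ) := by push_cast; rfl
      rw [h2, Complex.ofReal_re]
    rw [h1]
    exact div_neg_of_neg_of_pos (by exact_mod_cast ha) (by exact_mod_cast hb)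
  · exact top_q2 hd hf hf0 H E ε hε hE b (Pool.Agent.Y229.isB_of_single _ b hb) Z (Or.inl hZ)

/-- **Q2 for the class.** -/
theorem clo_q2 (c : Bool) (A : Fam) (Z : RatFunc ℂ)
    (h : TT HasQ2 (HypAtom E ε) c A Z) (b : Polynomial ℂ)
    (hb : IsFunctionalEq A.f b) :
    ∃ P : Polynomial ℂ, algebraMap (Polynomial ℂ) (RatFunc ℂ) b * Z =
      algebraMap (Polynomial ℂ) (RatFunc ℂ) P :=
  QQ_of_Cq A Z (closure _ _ has_Cq (fun A Z h => h.elim (form_Cq E ε hε hE A Z)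
    fun ⟨_, _, _, h2⟩ => has_Cq A Z h2) c A Z h) b hb

end Pool.Agent.H940.O
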