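import Pool.Agent.H940.O.BoxO

set_option autoImplicit false
set_option linter.unusedSectionVars false
set_option linter.unusedVariables false

/-! # A torus of determinant one which contracts the coincident lines -/

namespace Pool.Agent.H940.O

open MvPolynomial Pool.Agent.W428.MOT Pool.Agent.TH192.MT Pool.Agent.TH192.DT Pool.Agent.Q49.CO
open Pool.Agent.Q57.QM Pool.Agent.Y229 Pool.Agent.Q57.MC Pool.Agent.Q57.MD
open Pool.Agent.H940.Z Pool.Agent.H940.G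

variable {n : ℕ}

theorem tt_const {A B : Matrix (Fin (n + 1)) (Fin (n + 1)) ℂ} (hBA : B * A = 1) (c : ℕ)
    (γ : Arc ℂ (Fin (n + 1))) : tt A B (fun _ => c) γ = fun i => PowerSeries.X ^ c * γ i := by
  unfold tt
  have h1 : ts (fun _ => c) (la A γ) = fun i => PowerSeries.X ^ c * la A γ i := rfl
  have h2 : ∀ δ : Arc ℂ (Fin (n + 1)), la B (fun i => PowerSeries.X ^ c * δ i) =
      fun i => PowerSeries.X ^ c * la B δ i := by
    intro δ
    funext i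
    unfold la
    rw [Finset.mul_sum]
    refine Finset.sum_congr rfl fun j _ => ?_
    ring
  rw [h1, h2, la_la, hBA, la_one]

theorem box_tt {A B : Matrix (Fin (n + 1)) (Fin (n + 1)) ℂ} (hAB : A * B = 1)
    (m w : Fin (n + 1) → ℕ) (γ : Arc ℂ (Fin (n + 1))) :
    Box A m (tt A B w γ) ↔ Box A (fun i => m i - w i) γ := by
  unfold Box
  rw [la_tt hAB]
  refine forall_congr' fun i => ?_
  unfold ts
  rw [vn_X_pow_iff]

variable {f : MvPolynomial (Fin (n + 1)) ℂ} {d : ℕ} (hd : 2 ≤ d) (hf : f.IsHomogeneous d)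
  (hf0 : f ≠ 0) (H : LH f) {M : Meas ℂ (MK ℂ)} (hL : M.L = ((Lu ℂ : (MK ℂ)ˣ) : MK ℂ))
  {a b : ℤ} (hb : 0 < b)
include hd hf hf0 H hL hb

/-- **A torus of determinant one.** -/
theorem fix_o {m : ℕ} (hm : e1 a b ≤ m) {A B : Matrix (Fin (n + 1)) (Fin (n + 1)) ℂ}
    (hAB : A * B = 1) (hBA : B * A = 1) (ω : Fin (n + 1) → ℤ) (q : ℕ) (hq : 0 < q) (c : ℕ)
    (hc : ∀ i, 0 ≤ ω i + c) (hsum : ∑ i, ω i = 0)
    (hfe : ∀ γ : Arc ℂ (Fin (n + 1)), aeval (tt A B (fun i => (ω i + c).toNat) γ) f =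
      PowerSeries.X ^ (c * d) * aeval γ f)
    (hvx : -((n + 1 : ℕ) : ℤ) * b = a * d)
    (hD : ∀ s : Fin (n + 1) × (Fin n → ℂ), Cn s → Sg f (pt s) →
      Od (Lu ℂ) a b (m + 1) (VS M (((Lu ℂ)⁻¹ : (MK ℂ)ˣ) : MK ℂ) (Tb s.1 s.2 1) f))
    (hD' : ∀ s : Fin (n + 1) × (Fin n → ℂ), Cn s → Sg f (pt s) →
      Od (Lu ℂ) a b m (VS M (((Lu ℂ)⁻¹ : (MK ℂ)ˣ) : MK ℂ) (Tb s.1 s.2 1) f) ∨
      ∀ i, A.mulVec (pt s) i ≠ 0 → ω i = q) :
    Od (Lu ℂ) a b (m + 1)
      (VS M (((Lu ℂ)⁻¹ : (MK ℂ)ˣ) : MK ℂ) (fun _ : Arc ℂ (Fin (n + 1)) => True) f) := by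
  classical
  have hv : M.L * (((Lu ℂ)⁻¹ : (MK ℂ)ˣ) : MK ℂ) = 1 := by rw [hL, Units.mul_inv]
  set v : MK ℂ := (((Lu ℂ)⁻¹ : (MK ℂ)ˣ) : MK ℂ) with hvdef
  set mV : Fin (n + 1) → ℕ := fun _ => c with hmV
  set mV1 : Fin (n + 1) → ℕ := fun _ => c + q with hmV1
  set mV2 : Fin (n + 1) → ℕ := fun i => (ω i + c).toNat with hmV2
  set V : Arc ℂ (Fin (n + 1)) → Prop := Box A mV with hV
  set V1 : Arc ℂ (Fin (n + 1)) → Prop := Box A mV1 with hV1
  set V2 : Arc ℂ (Fin (n + 1)) → Prop := Box A mV2 with hV2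
  have cV := cyl_Box A mV
  have cV1 := cyl_Box A mV1
  have cV2 := cyl_Box A mV2
  have hfc : ∀ (k : ℕ) (γ : Arc ℂ (Fin (n + 1))), aeval (tt A B (fun _ => k) γ) f =
      PowerSeries.X ^ (k * d) * aeval γ f := by
    intro k γ
    rw [tt_const hBA, aeval_homog f d hf γ, ← pow_mul]
  have hsub : ∀ γ, V1 γ → V γ := fun γ h i => vn_mono (h i) (Nat.le_add_right _ _)
  have htrue : ∀ w : Fin (n + 1) → ℕ,
      (fun γ : Arc ℂ (Fin (n + 1)) => Box A w (tt A B w γ)) = fun _ => True := by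
    intro w
    refine funext fun γ => propext ⟨fun _ => trivial, fun _ => ?_⟩
    rw [box_tt hAB]
    intro i j hj
    have hj' : j < w i - w i := hj
    omega
  -- the three boxes
  have e2 := VS_tt M hv hAB hBA mV f (c * d) (hfc c) cV fun γ hγ => hγ
  have e3 := VS_tt M hv hAB hBA mV2 f (c * d) hfe cV2 fun γ hγ => hγ
  rw [htrue] at e2 e3
  have hs2 : ∑ i, mV2 i = ∑ i, mV i := by
    have h1 : ((∑ i, mV2 i : ℕ) : ℤ) = ((∑ i, mV i : ℕ) : ℤ) := by
      rw [Nat.cast_sum, Nat.cast_sum]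
      have h2 : ∀ i, ((mV2 i : ℕ) : ℤ) = ω i + ((mV i : ℕ) : ℤ) := fun i =>
        Int.toNat_of_nonneg (hc i)
      rw [Finset.sum_congr rfl fun i _ => h2 i, Finset.sum_add_distrib, hsum, zero_add]
    exact_mod_cast h1
  have e4 : VS M v V2 f = VS M v V f := by
    rw [hV, hV2, e2, e3, hs2]
  have e5 := VS_tt M hv hAB hBA (fun _ => q) f (q * d) (hfc q) cV1 fun γ hγ i =>
    vn_mono (hγ i) (Nat.le_add_left _ _)
  have hV1V : (fun γ : Arc ℂ (Fin (n + 1)) => Box A mV1 (tt A B (fun _ => q) γ)) = V := by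
    refine funext fun γ => propext ?_
    rw [box_tt hAB, hV]
    have h1 : (fun i : Fin (n + 1) => mV1 i - q) = mV := by
      funext i
      simp only [hmV1, hmV]
      omega
    rw [h1]
  rw [hV1V] at e5
  -- the combinations
  have hline : ∀ Φ : Prop → Prop → Prop → Prop,
      (∀ (P Q S : Arc ℂ (Fin (n + 1)) → Prop) (q : ℕ), Cyl P q → Cyl Q q → Cyl S q →
        Cyl (fun γ => Φ (P γ) (Q γ) (S γ)) q) → ¬ Φ True True True →
      (∀ x y z : Prop, (z ↔ y) → (y → x) → ¬ Φ x y z) →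
      Od (Lu ℂ) a b m (VS M v (fun γ => Φ (V γ) (V1 γ) (V2 γ)) f) := by
    intro Φ h1 h2 h3
    refine box_o hd hf hf0 H hL hb hm A Φ h1 h2 mV mV1 mV2 fun s hs1 hs2 => ?_
    rcases hD' s hs1 hs2 with h4 | h4
    · exact Or.inl h4
    · right
      intro k
      refine h3 _ _ _ ?_ ?_
      · unfold NB
        refine forall_congr' fun i => ?_
        by_cases h5 : A.mulVec (pt s) i = 0
        · exact ⟨fun _ => Or.inr h5, fun _ => Or.inr h5⟩
        · have h6 : mV2 i = mV1 i := by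
            simp only [hmV2, hmV1]
            rw [h4 i h5]
            omega
          simp only [h6]
      · unfold NB
        intro h5 i
        refine (h5 i).imp_left fun h6 => ?_
        simp only [hmV1, hmV] at h6 ⊢
        omega
  have w1 := hline (fun x _ z => z ∧ ¬ x) (fun P Q S q h1 _ h3 => h3.and h1.not)
    (fun h => h.2 trivial) (fun x y z h1 h2 h3 => h3.2 (h2 (h1.1 h3.1)))
  have w2 := hline (fun x y z => (x ∧ ¬ y) ∧ z) (fun P Q S q h1 h2 h3 => (h1.and h2.not).and h3)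
    (fun h => h.1.2 trivial) (fun x y z h1 h2 h3 => h3.1.2 (h1.1 h3.2))
  have w3 := hline (fun x y z => (x ∧ ¬ z) ∧ y) (fun P Q S q h1 h2 h3 => (h1.and h3.not).and h2)
    (fun h => h.1.2 trivial) (fun x y z h1 h2 h3 => h3.1.2 (h1.2 h3.2))
  set q0 : ℕ := ∑ i, mV i + ∑ i, mV1 i + ∑ i, mV2 i with hq0
  have cV' : Cyl V q0 := cV.mono (by omega)
  have cV1' : Cyl V1 q0 := cV1.mono (by omega)
  have cV2' : Cyl V2 q0 := cV2.mono (by omega)
  have s1 := VS_split M hv cV' cV1' f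
  have s2 := VS_split M hv (cV'.and cV1'.not) cV2' f
  have s3 := VS_split M hv (cV'.and cV2'.not) cV1' f
  have s4 := VS_split M hv cV' cV2' f
  have s5 := VS_split M hv cV2' cV' f
  have t1 : (fun γ : Arc ℂ (Fin (n + 1)) => V γ ∧ V1 γ) = V1 :=
    funext fun γ => propext ⟨fun h => h.2, fun h => ⟨hsub γ h, h⟩⟩
  have t2 : (fun γ : Arc ℂ (Fin (n + 1)) => (V γ ∧ ¬ V2 γ) ∧ ¬ V1 γ) =
      fun γ => (V γ ∧ ¬ V1 γ) ∧ ¬ V2 γ := funext fun γ => propext (by tauto)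
  have t3 : (fun γ : Arc ℂ (Fin (n + 1)) => V2 γ ∧ V γ) = fun γ => V γ ∧ V2 γ :=
    funext fun γ => propext (by tauto)
  rw [t1] at s1
  rw [t2] at s3
  rw [t3] at s5
  have hshell : Od (Lu ℂ) a b m (VS M v (fun γ => V γ ∧ ¬ V1 γ) f) := by
    have h1 : VS M v (fun γ => V γ ∧ ¬ V1 γ) f = VS M v (fun γ => (V γ ∧ ¬ V1 γ) ∧ V2 γ) f +
        VS M v (fun γ => V2 γ ∧ ¬ V γ) f - VS M v (fun γ => (V γ ∧ ¬ V2 γ) ∧ V1 γ) f := by
      linear_combination s2 - s3 - s4 + s5 - e4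
    rw [h1]
    exact (w2.add w1).sub w3
  have hVo : Od (Lu ℂ) a b (m + 1) (VS M v V f) := by
    refine Od.geo' (ν := ∑ _i : Fin (n + 1), q) (N := q * d) (Nat.mul_pos hq (by omega)) hb ?_
      (W := VS M v (fun γ => V γ ∧ ¬ V1 γ) f + PowerSeries.C (v ^ ∑ _i : Fin (n + 1), q) *
        (PowerSeries.C (vo M v V) * ∑ j ∈ Finset.range (q * d), PowerSeries.X ^ j)) ?_ ?_
    · rw [Finset.sum_const, Finset.card_univ, Fintype.card_fin, smul_eq_mul]
      push_cast at hvx ⊢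
      linear_combination (q : ℤ) * hvx
    · exact hshell.add (od_CX _ (od_geo _ _ _))
    · linear_combination s1 + e5
  have s6 := VS_split M hv (Cyl.const True q0) cV' f
  simp only [true_and] at s6
  rw [s6]
  exact hVo.add (nbox_o hd hf hf0 H hL hb (hm.trans (Nat.le_succ m)) A mV hD)

end Pool.Agent.H940.O
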