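import Pool.Agent.H940.O.Od
import Pool.Agent.H940.G.Zeta

set_option autoImplicit false
set_option linter.unusedSectionVars false
set_option linter.unusedVariables false

/-! # The series of volumes near a singular line, with orders -/

namespace Pool.Agent.H940.O

open MvPolynomial Pool.Agent.W428.MOT Pool.Agent.TH192.MT Pool.Agent.TH192.DT Pool.Agent.Q49.CO
open Pool.Agent.Q57.QM Pool.Agent.Y229 Pool.Agent.Q57.MC Pool.Agent.Q57.MD
open Pool.Agent.H940.LT (eval_homog)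
open Pool.Agent.H940.Z Pool.Agent.H940.G

/-- the order of the factor `1 - u⁻¹ T` -/
def e1 (a b : ℤ) : ℕ := if -b = a then 1 else 0

section

variable {R : Type} [CommRing R] {u : Rˣ} {a b : ℤ} (hb : 0 < b)
include hb

theorem od_of_stable (Z : PowerSeries R) (N₀ : ℕ)
    (h : ∀ N, N₀ ≤ N → PowerSeries.coeff (N + 1) Z = ((u⁻¹ : Rˣ) : R) * PowerSeries.coeff N Z) :
    Od u a b (e1 a b) Z := by
  have h1 := Od.geoI (u := u) (a := a) (b := b) (m := 0) (ν := 1) (N := 1) one_pos one_pos hb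
    (Z := Z) (W := Z - PowerSeries.C (((u⁻¹ : Rˣ) : R) ^ 1) * PowerSeries.X ^ 1 * Z)
    (Od.tail 0 _ (N₀ + 1) fun N hN => by
      obtain ⟨m, rfl⟩ : ∃ m, N = m + 1 := ⟨N - 1, by omega⟩
      rw [map_sub, mul_assoc, PowerSeries.coeff_C_mul, pow_one, pow_one,
        PowerSeries.coeff_succ_X_mul, h m (by omega), sub_self]) (by ring)
  refine h1.mono ?_
  unfold e1
  rw [zero_add]
  by_cases h2 : -b = a
  · rw [if_pos h2]
    split_ifs <;> omega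
  · rw [if_neg h2, if_neg]
    intro h3
    apply h2
    push_cast at h3
    linarith

end

section

variable {K : Type} [Field K] {σ : Type} [Fintype σ] {R : Type} [CommRing R] (M : Meas K R)
  (u : Rˣ) {a b : ℤ} (hb : 0 < b) (hL : M.L = (u : R))
include hL hb

/-- the series of the volumes on a set on which the order of the gradient is bounded -/
theorem VS_bdd_o (f : MvPolynomial σ K) (e : ℕ) {P : Arc K σ → Prop} {q : ℕ} (hP : Cyl P q)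
    (h : ∀ γ, P γ → ∃ s, ¬ Vn e (aeval γ (pderiv s f))) :
    Od u a b (e1 a b) (VS M ((u⁻¹ : Rˣ) : R) P f) := by
  have hv : M.L * ((u⁻¹ : Rˣ) : R) = 1 := by rw [hL, Units.mul_inv]
  obtain ⟨N₀, hN₀⟩ := stable M hv f e hP h
  refine od_of_stable hb _ N₀ fun N hN => ?_
  rw [coeff_VS, coeff_VS]
  exact hN₀ N hN

end

variable {n : ℕ} {M : Meas ℂ (MK ℂ)} (hL : M.L = ((Lu ℂ : (MK ℂ)ˣ) : MK ℂ)) {a b : ℤ} (hb : 0 < b)

theorem od_CX {m : ℕ} {Z : PowerSeries (MK ℂ)} (c : MK ℂ) (h : Od (Lu ℂ) a b m Z) :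
    Od (Lu ℂ) a b m (PowerSeries.C c * Z) := Od.mul_mem (rat_C _ _) h

theorem od_geo (m : ℕ) (c : MK ℂ) (e : ℕ) : Od (Lu ℂ) a b m
    (PowerSeries.C c * ∑ j ∈ Finset.range e, (PowerSeries.X : PowerSeries (MK ℂ)) ^ j) :=
  Od.of_mem (Subalgebra.mul_mem _ (rat_C _ _)
    (Subalgebra.sum_mem _ fun j _ => Subalgebra.pow_mem _ (rat_X _) _)) m

include hL hb

open Classical in
/-- **Weighted homogeneous polynomials with an isolated critical point.** -/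
theorem whi_o {g : MvPolynomial (Fin n) ℂ} {w : Fin n → ℕ} {N : ℕ} (h : WHI g w N) (hn : 0 < n) :
    Od (Lu ℂ) a b (e1 a b + if -((∑ i, w i : ℕ) : ℤ) * b = a * N then 1 else 0)
      (VS M (((Lu ℂ)⁻¹ : (MK ℂ)ˣ) : MK ℂ) Or g) := by
  have hv : M.L * (((Lu ℂ)⁻¹ : (MK ℂ)ˣ) : MK ℂ) = 1 := by rw [hL, Units.mul_inv]
  have hNpos : 0 < N := lt_of_le_of_lt (Nat.zero_le _) (h.lt ⟨0, hn⟩)
  have hwpos : 0 < ∑ i, w i := Finset.sum_pos (fun i _ => h.wpos i) ⟨⟨0, hn⟩, Finset.mem_univ _⟩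
  obtain ⟨m, hm⟩ := h.pow_mem
  -- the gradient outside of the box
  have hgr : ∀ γ : Arc ℂ (Fin n), ¬ Box 1 w γ → ∃ s,
      ¬ Vn ((m + 1) * ∑ i, w i) (aeval γ (pderiv s g)) := by
    intro γ hγ
    by_contra hc
    push Not at hc
    apply hγ
    intro i
    rw [la_one]
    refine vn_of_pow (M := m + 1) ?_ (Nat.succ_pos m)
    have h1 := vn_mem hc (Ideal.mem_of_dvd _ (pow_dvd_pow (X i) (Nat.le_succ m)) (hm i))
    rw [map_pow, aeval_X] at h1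
    exact vn_mono h1 (Nat.mul_le_mul_left _ (Finset.single_le_sum
      (fun i _ => Nat.zero_le (w i)) (Finset.mem_univ i)))
  have hbx := cyl_Box (1 : Matrix (Fin n) (Fin n) ℂ) w
  have htt : ∀ γ : Arc ℂ (Fin n), tt 1 1 w γ = ts w γ := by
    intro γ
    unfold tt
    rw [la_one, la_one]
  have hscale := VS_tt M hv (A := 1) (B := 1) (mul_one _) (mul_one _) w g N (fun γ => by
    rw [htt]
    exact aeval_ts h.hom γ) hbx fun γ hγ => hγ
  have htrue : (fun γ : Arc ℂ (Fin n) => Box 1 w (tt 1 1 w γ)) = fun _ => True := by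
    refine funext fun γ => propext ⟨fun _ => trivial, fun _ i => ?_⟩
    rw [la_tt (mul_one _)]
    unfold ts
    rw [vn_iff]
    exact Dvd.intro _ rfl
  rw [htrue] at hscale
  have hall : Od (Lu ℂ) a b (e1 a b + if -((∑ i, w i : ℕ) : ℤ) * b = a * N then 1 else 0)
      (VS M (((Lu ℂ)⁻¹ : (MK ℂ)ˣ) : MK ℂ) (fun _ => True) g) := by
    have h1 := VS_split M hv (Cyl.const True 0) hbx g
    have h2 : (fun γ : Arc ℂ (Fin n) => True ∧ Box 1 w γ) = Box 1 w :=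
      funext fun γ => propext (by tauto)
    have h3 : Od (Lu ℂ) a b (e1 a b) (VS M (((Lu ℂ)⁻¹ : (MK ℂ)ˣ) : MK ℂ)
        (fun γ : Arc ℂ (Fin n) => True ∧ ¬ Box 1 w γ) g) :=
      VS_bdd_o M (Lu ℂ) hb hL g _ ((Cyl.const True _).and hbx.not) fun γ hγ => hgr γ hγ.2
    rw [h2, hscale] at h1
    refine Od.geoI (ν := ∑ i, w i) (N := N) hwpos hNpos hb
      (W := VS M (((Lu ℂ)⁻¹ : (MK ℂ)ˣ) : MK ℂ) (fun γ : Arc ℂ (Fin n) => True ∧ ¬ Box 1 w γ) g +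
        PowerSeries.C ((((Lu ℂ)⁻¹ : (MK ℂ)ˣ) : MK ℂ) ^ (∑ i, w i)) *
        (PowerSeries.C (vo M (((Lu ℂ)⁻¹ : (MK ℂ)ˣ) : MK ℂ) fun _ : Arc ℂ (Fin n) => True) *
          ∑ j ∈ Finset.range N, PowerSeries.X ^ j)) ?_ ?_
    · exact h3.add (od_CX _ (od_geo _ _ _))
    · linear_combination h1
  have hbox : Od (Lu ℂ) a b (e1 a b + if -((∑ i, w i : ℕ) : ℤ) * b = a * N then 1 else 0)
      (VS M (((Lu ℂ)⁻¹ : (MK ℂ)ˣ) : MK ℂ) (Box 1 w) g) := by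
    rw [hscale]
    exact od_CX _ ((od_geo _ _ _).add (Od.mul_mem (Subalgebra.pow_mem _ (rat_X _) _) hall))
  rw [VS_split M hv (cyl_Or 0) hbx g]
  have h2 : (fun γ : Arc ℂ (Fin n) => Or γ ∧ Box 1 w γ) = Box 1 w := by
    refine funext fun γ => propext ⟨fun h => h.2, fun h' => ⟨fun i => ?_, h'⟩⟩
    have := h' i 0 (h.wpos i)
    rwa [la_one] at this
  rw [h2]
  exact hbox.add ((VS_bdd_o M (Lu ℂ) hb hL g _ ((cyl_Or _).and hbx.not)
    fun γ hγ => hgr γ hγ.2).mono (Nat.le_add_right _ _))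

omit hb in
/-- the series at the origin -/
theorem vs_or (g : MvPolynomial (Fin n) ℂ) : VW M (((Lu ℂ)⁻¹ : (MK ℂ)ˣ) : MK ℂ)
    (fun _ : Fin 1 => g) {0} = VS M (((Lu ℂ)⁻¹ : (MK ℂ)ˣ) : MK ℂ) Or g := by
  have hv : M.L * (((Lu ℂ)⁻¹ : (MK ℂ)ˣ) : MK ℂ) = 1 := by rw [hL, Units.mul_inv]
  ext k
  rw [coeff_VW, VS_origin M hv g constr_pt0]
  congr 2
  refine funext fun γ => propext ?_
  rw [Set.mem_singleton_iff]
  exact ⟨fun h i => congrFun h i, fun h => funext h⟩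

open Classical in
/-- **The germs.** -/
theorem germ_o {h g : MvPolynomial (Fin n) ℂ} {w : Fin n → ℕ} {N : ℕ}
    {η : Fin n → MvPowerSeries (Fin n) ℂ} (H : WHG h g w N η) (hn : 0 < n)
    (h0 : constantCoeff h = 0) (h1 : ∀ t, constantCoeff (pderiv t h) = 0) :
    Od (Lu ℂ) a b (e1 a b + if -((∑ i, w i : ℕ) : ℤ) * b = a * N then 1 else 0)
      (VW M (((Lu ℂ)⁻¹ : (MK ℂ)ˣ) : MK ℂ) (fun _ : Fin 1 => h) {0}) := by
  have hv : M.L * (((Lu ℂ)⁻¹ : (MK ℂ)ˣ) : MK ℂ) = 1 := by rw [hL, Units.mul_inv]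
  have hs : Ideal.span (Set.range fun j : Fin 1 =>
      (((fun _ : Fin 1 => h) j : MvPolynomial (Fin n) ℂ) : MvPowerSeries (Fin n) ℂ)) =
      Ideal.span (Set.range fun k : Fin 1 => aeval η ((fun _ : Fin 1 => g) k)) := by
    rw [Set.range_const, Set.range_const]
    exact H.gen
  have h2 := fun K => vol_formal M hv (fun _ : Fin 1 => h) (fun _ : Fin 1 => g) η id H.cc H.det hs K
  have h3 : VW M (((Lu ℂ)⁻¹ : (MK ℂ)ˣ) : MK ℂ) (fun _ : Fin 1 => h) {0} =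
      PowerSeries.C (M.χ (Fin n) {0} * (((Lu ℂ)⁻¹ : (MK ℂ)ˣ) : MK ℂ) ^ Fintype.card (Fin n) *
        M.L ^ n) * VW M (((Lu ℂ)⁻¹ : (MK ℂ)ˣ) : MK ℂ) (fun _ : Fin 1 => g) {0} := by
    ext K
    rw [PowerSeries.coeff_C_mul, coeff_VW, coeff_VW, h2]
  rw [h3, vs_or hL]
  exact od_CX _ (whi_o hL hb (whi H h0 h1) hn)

open Classical in
/-- **The arcs with origin on a singular line.** -/
theorem line_o {f : MvPolynomial (Fin (n + 1)) ℂ} {d : ℕ} (hd : 2 ≤ d) (hf : f.IsHomogeneous d)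
    (hf0 : f ≠ 0) {s : Fin (n + 1) × (Fin n → ℂ)} (hsg : Sg f (pt s))
    {g : MvPolynomial (Fin n) ℂ} {w : Fin n → ℕ} {N : ℕ} {η : Fin n → MvPowerSeries (Fin n) ℂ}
    (H : WHG (germAt s.1 s.2 f) g w N η) :
    Od (Lu ℂ) a b (e1 a b + if -((∑ i, w i : ℕ) : ℤ) * b = a * N then 1 else 0)
      (VS M (((Lu ℂ)⁻¹ : (MK ℂ)ˣ) : MK ℂ) (Tb s.1 s.2 1) f) := by
  have hv : M.L * (((Lu ℂ)⁻¹ : (MK ℂ)ˣ) : MK ℂ) = 1 := by rw [hL, Units.mul_inv]
  have h1 := SW_chart M (b := true) hv (fun _ : Fin 1 => f) (an s.1 s.2)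
    (fun _ : Fin 1 => germAt s.1 s.2 f) (X s.1) (same_germ f d hf s.1 s.2) (constr_Wl s.1 s.2)
    (indep_an s.1 s.2) (fun z hz => by rw [aeval_X]; exact hz.1)
  have h2 : VS M (((Lu ℂ)⁻¹ : (MK ℂ)ˣ) : MK ℂ) (Tb s.1 s.2 1) f =
      SW M true (((Lu ℂ)⁻¹ : (MK ℂ)ˣ) : MK ℂ) (fun _ : Fin 1 => f) (Wl s.1 s.2) := by
    ext K
    rw [SW_true, coeff_VW, VS_origin M hv f (constr_Wl s.1 s.2)]
    congr 2
    exact funext fun γ => propext (Tb_one s.1 s.2 γ)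
  rw [h2, h1, SW_true]
  exact od_CX _ (germ_o hL hb H (pos_of_sg hd hf hf0 (pt_ne s) hsg) (cc_germ hd hf hf0 hsg)
    (cc_pd_germ hd hf hf0 hsg))

end Pool.Agent.H940.O
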