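import Pool.Agent.H940.O.FixO
import Pool.Agent.H940.M.Forms
import Pool.Agent.H940.M.Fix

set_option autoImplicit false
set_option linter.unusedSectionVars false
set_option linter.unusedVariables false
set_option maxHeartbeats 1000000

/-! # The orders of the poles of the motivic volumes of the forms -/

namespace Pool.Agent.H940.O

open MvPolynomial Pool.Agent.W428.MOT Pool.Agent.TH192.MT Pool.Agent.TH192.DT Pool.Agent.Q49.CO
open Pool.Agent.Q57.QM Pool.Agent.Y229 Pool.Agent.Q57.MC Pool.Agent.Q57.MD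
open Pool.Agent.H628R4.TP (IsBFunction)
open Pool.Agent.H940.Z Pool.Agent.H940.G
open Pool.Agent.H940.R (WHK germ)
open Pool.Agent.H940.LT (dv)
open Pool.Agent.H940.M (wgt_root vertex_root dbl_or_fix root_one fix_coords)

variable {n : ℕ}

theorem sb_eq (Z : Matrix (Fin (n + 1)) (Fin (n + 1)) ℂ) (f : MvPolynomial (Fin (n + 1)) ℂ) :
    LA.sb Z f = R.LK.sb Z f := by
  have h1 : LA.sb Z = R.LK.sb Z := by
    apply algHom_ext
    intro i
    rw [LA.sb_X, R.LK.sb_X]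
    rfl
  rw [h1]

/-- the data of a singular point -/
theorem whg_whk {h g : MvPolynomial (Fin n) ℂ} {w : Fin n → ℕ} {N : ℕ}
    {η : Fin n → MvPowerSeries (Fin n) ℂ} (H : WHG h g w N η) (h0 : constantCoeff h = 0)
    (h1 : ∀ t, constantCoeff (pderiv t h) = 0) : WHK h g w N η := by
  obtain ⟨m, hm⟩ := (whi H h0 h1).pow_mem
  exact ⟨H.wpos, H.hom, fun i => ⟨m, hm i⟩, H.cc, H.det, H.gen⟩

/-- the number of the singular point is the one of the vertex -/
def Cz (f : MvPolynomial (Fin (n + 1)) ℂ) (d : ℕ) (s : Fin (n + 1) × (Fin n → ℂ)) : Prop :=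
  ∃ (g : MvPolynomial (Fin n) ℂ) (w : Fin n → ℕ) (N : ℕ) (η : Fin n → MvPowerSeries (Fin n) ℂ),
    WHG (germAt s.1 s.2 f) g w N η ∧ d * ∑ t, w t = (n + 1) * N

theorem rm_ge {b' : Polynomial ℂ} (hb0 : (Polynomial.X + 1) * b' ≠ 0) {a b : ℤ} (hb : 0 < b)
    {k : ℕ} (hk : k ≤ b'.rootMultiplicity ((a : ℂ) / b)) :
    e1 a b + k ≤ ((Polynomial.X + 1) * b').rootMultiplicity ((a : ℂ) / b) := by
  rw [Polynomial.rootMultiplicity_mul hb0]
  unfold e1
  split_ifs with h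
  · have h1 : 1 ≤ (Polynomial.X + 1 : Polynomial ℂ).rootMultiplicity ((a : ℂ) / b) := by
      have h2 := left_ne_zero_of_mul hb0
      refine (Polynomial.rootMultiplicity_pos h2).2 ?_
      have hb1 : (b : ℂ) ≠ 0 := by exact_mod_cast hb.ne'
      rw [← h, Polynomial.IsRoot, Polynomial.eval_add, Polynomial.eval_X, Polynomial.eval_one,
        Int.cast_neg, neg_div, div_self hb1, neg_add_cancel]
    omega
  · omega

variable {f : MvPolynomial (Fin (n + 1)) ℂ} {d : ℕ} (hd : 2 ≤ d) (hf : f.IsHomogeneous d)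
  (hf0 : f ≠ 0) (H : LH f) {M : Meas ℂ (MK ℂ)} (hL : M.L = ((Lu ℂ : (MK ℂ)ˣ) : MK ℂ))
  {a b : ℤ} (hb : 0 < b)
include hd hf hf0 H hL hb

/-- a field with a divergence -/
theorem div_o {m : ℕ} (hm : e1 a b ≤ m)
    (hD : ∀ s : Fin (n + 1) × (Fin n → ℂ), Cn s → Sg f (pt s) →
      Od (Lu ℂ) a b m (VS M (((Lu ℂ)⁻¹ : (MK ℂ)ˣ) : MK ℂ) (Tb s.1 s.2 1) f))
    (hvx : -((n + 1 : ℕ) : ℤ) * b = a * d)
    (η : Fin (n + 1) → MvPolynomial (Fin (n + 1)) ℂ) (h1 : ∑ i, η i * pderiv i f = 0)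
    (h2 : constantCoeff (dv η) ≠ 0) :
    Od (Lu ℂ) a b m
      (VS M (((Lu ℂ)⁻¹ : (MK ℂ)ˣ) : MK ℂ) (fun _ : Arc ℂ (Fin (n + 1)) => True) f) := by
  classical
  obtain ⟨A, B, w, c₀, hAB, hBA, hw, hc₀, hpos, hsec⟩ := exists_second f d (by omega) hf η h1 h2
  have hposc : ∀ i, 0 < w i + c₀ := hpos
  have hasum : ((∑ i, (w i + c₀).toNat : ℕ) : ℤ) = ∑ i, w i + (n + 1 : ℕ) * c₀ := by
    rw [Nat.cast_sum]
    have h2 : ∀ i, (((w i + c₀).toNat : ℕ) : ℤ) = w i + c₀ := fun i =>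
      Int.toNat_of_nonneg (hposc i).le
    rw [Finset.sum_congr rfl fun i _ => h2 i, Finset.sum_add_distrib, Finset.sum_const,
      Finset.card_univ, Fintype.card_fin, nsmul_eq_mul]
  refine second_o hd hf hf0 H hL hb hm hD hAB hBA (fun i => (w i + c₀).toNat) (c₀ * d)
    (Nat.mul_pos hc₀ (by omega)) (Finset.sum_pos (fun i _ => by
      have := hposc i
      omega) ⟨0, Finset.mem_univ _⟩) (hsec c₀ le_rfl) ?_
  rw [hasum]
  intro h3
  have h4 : (∑ i, w i) * b = 0 := by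
    push_cast at h3 hvx
    linear_combination (-1 : ℤ) * h3 + (c₀ : ℤ) * hvx
  rcases mul_eq_zero.1 h4 with h5 | h5
  · exact hw h5
  · omega

/-- a field which fixes the coincident points -/
theorem fixf_o {m : ℕ} (hm : e1 a b ≤ m)
    (hD : ∀ s : Fin (n + 1) × (Fin n → ℂ), Cn s → Sg f (pt s) →
      Od (Lu ℂ) a b (m + 1) (VS M (((Lu ℂ)⁻¹ : (MK ℂ)ˣ) : MK ℂ) (Tb s.1 s.2 1) f))
    (hvx : -((n + 1 : ℕ) : ℤ) * b = a * d)
    (θ : Fin (n + 1) → MvPolynomial (Fin (n + 1)) ℂ) (hθ1 : ∀ l, (θ l).IsHomogeneous 1)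
    (hθ2 : ∑ l, θ l * pderiv l f = 0) (htr : constantCoeff (dv θ) = 0)
    (hD' : ∀ s : Fin (n + 1) × (Fin n → ℂ), Cn s → Sg f (pt s) →
      Od (Lu ℂ) a b m (VS M (((Lu ℂ)⁻¹ : (MK ℂ)ˣ) : MK ℂ) (Tb s.1 s.2 1) f) ∨
      ∀ l, eval (pt s) (θ l) = pt s l) :
    Od (Lu ℂ) a b (m + 1)
      (VS M (((Lu ℂ)⁻¹ : (MK ℂ)ˣ) : MK ℂ) (fun _ : Arc ℂ (Fin (n + 1)) => True) f) := by
  classical
  set A : Matrix (Fin (n + 1)) (Fin (n + 1)) ℂ := fun i j => coeff (Finsupp.single j 1) (θ i)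
    with hA
  have hθA : ∀ i, θ i = ∑ j, C (A i j) * X j := by
    intro i
    have h1 := hc_one (θ i)
    rw [homogeneousComponent_of_mem (hθ1 i), if_pos rfl] at h1
    exact h1
  set T : Module.End ℂ (Fin (n + 1) → ℂ) := Matrix.toLin' A.transpose with hT
  have hTs : ∀ i, T (Pi.single i 1) = A i := by
    intro i
    funext j
    rw [hT, Matrix.toLin'_apply, Matrix.mulVec_single_one]
    rfl
  have hTc : ∀ (c : Fin (n + 1) → ℂ) (i : Fin (n + 1)), T c i = ∑ l, c l * A l i := by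
    intro c i
    rw [hT, Matrix.toLin'_apply]
    unfold Matrix.mulVec dotProduct
    exact Finset.sum_congr rfl fun l _ => by
      change A l i * c l = c l * A l i
      ring
  have hTt : LinearMap.trace ℂ _ T = 0 := by
    rw [hT, Matrix.trace_toLin'_eq]
    have h1 : ∑ i, A i i = 0 := by
      rw [← htr]
      unfold Pool.Agent.H940.LT.dv
      rw [map_sum]
      refine Finset.sum_congr rfl fun i _ => ?_
      rw [constantCoeff_eq, coeff_pderiv]
      simp only [zero_add, Finsupp.coe_zero, Pi.zero_apply, Nat.cast_zero, mul_one]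
      rfl
    exact h1
  have hDl : R.LK.Dl T f = 0 := by
    rw [R.Dl_eq, ← hθ2]
    refine Finset.sum_congr rfl fun i _ => ?_
    rw [hTs, R.LK.lf_apply, ← hθA i]
  obtain ⟨Y, Z, ω, q, hYZ, hZY, hq0, hω, hgw, hfix⟩ := fix_coords T f d hf hDl hTt
  set c : ℕ := ∑ i, (ω i).natAbs with hc
  have hcpos : ∀ i, 0 ≤ ω i + c := by
    intro i
    have h1 : (ω i).natAbs ≤ c := Finset.single_le_sum (f := fun i => (ω i).natAbs)
      (fun i _ => Nat.zero_le _) (Finset.mem_univ i)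
    omega
  have hgh : (R.LK.sb Z f).IsHomogeneous d := by
    have h4 := hf.aeval (fun i => R.LK.lf (Z i)) (n := 1) fun i => Pool.Agent.H940.M.lf_hom _
    rwa [one_mul] at h4
  have hwh : IsWeightedHomogeneous (fun i => (ω i + c).toNat) (R.LK.sb Z f) (c * d) := by
    intro α hα
    have h1 := hgh hα
    rw [Finsupp.weight_apply, Finsupp.sum_fintype _ _ (by simp)] at h1 ⊢
    simp only [Pi.one_apply, smul_eq_mul, mul_one] at h1
    have h2 := hgw α (mem_support_iff.2 hα)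
    have h3 : ((∑ i, α i • (ω i + c).toNat : ℕ) : ℤ) = ((c * d : ℕ) : ℤ) := by
      rw [Nat.cast_sum]
      have h4 : ∀ i, ((α i • (ω i + c).toNat : ℕ) : ℤ) = (α i : ℤ) * ω i + (α i : ℤ) * c := by
        intro i
        rw [smul_eq_mul, Nat.cast_mul, Int.toNat_of_nonneg (hcpos i)]
        ring
      rw [Finset.sum_congr rfl fun i _ => h4 i, Finset.sum_add_distrib, h2, zero_add,
        ← Finset.sum_mul, ← h1]
      push_cast
      ring
    exact_mod_cast h3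
  refine fix_o hd hf hf0 H hL hb hm hYZ hZY ω q hq0 c hcpos hω (fun γ => ?_) hvx hD
    fun s hs1 hs2 => (hD' s hs1 hs2).imp_right fun h => hfix (pt s) fun e => ?_
  · have h1 : tt Y Z (fun i => (ω i + c).toNat) γ =
        la Z (ts (fun i => (ω i + c).toNat) (la Y γ)) := rfl
    rw [h1, aeval_la, sb_eq, aeval_ts hwh, ← sb_eq, ← aeval_la, la_la, hZY, la_one]
  · have h2 : ∀ l, ∑ j, A l j * pt s j = pt s l := by
      intro l
      have h3 := h l
      conv_lhs at h3 => rw [hθA l]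
      rw [map_sum] at h3
      rw [← h3]
      exact Finset.sum_congr rfl fun j _ => by rw [map_mul, eval_C, eval_X]
    have h3 : ∀ i, T e i * pt s i = ∑ l, e l * (A l i * pt s i) := by
      intro i
      rw [hTc, Finset.sum_mul]
      exact Finset.sum_congr rfl fun l _ => by ring
    rw [Finset.sum_congr rfl fun i _ => h3 i, Finset.sum_comm]
    refine Finset.sum_congr rfl fun l _ => ?_
    rw [← Finset.mul_sum, h2]

/-- **The orders of the poles of the series of volumes of all arcs.** -/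
theorem all_o (ha : a < 0) (B : Polynomial ℂ) (hB : IsBFunction f B) (hB0 : B ≠ 0) :
    Od (Lu ℂ) a b (B.rootMultiplicity ((a : ℂ) / b))
      (VS M (((Lu ℂ)⁻¹ : (MK ℂ)ˣ) : MK ℂ) (fun _ : Arc ℂ (Fin (n + 1)) => True) f) := by
  classical
  obtain ⟨b', rfl⟩ := root_one hd hf hf0 B hB
  have hb'0 : b' ≠ 0 := right_ne_zero_of_mul hB0
  have hbc : (b : ℂ) ≠ 0 := by exact_mod_cast hb.ne'
  have hd0 : (d : ℂ) ≠ 0 := by
    have : d ≠ 0 := by omega
    exact_mod_cast this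
  -- the numbers
  have hnum : ∀ (ν N : ℕ), 0 < N → -((ν : ℕ) : ℤ) * b = a * N →
      -((ν : ℕ) : ℂ) / N = (a : ℂ) / b := by
    intro ν N hN h
    have hN0 : (N : ℂ) ≠ 0 := by exact_mod_cast hN.ne'
    rw [div_eq_div_iff hN0 hbc]
    exact_mod_cast h
  -- the lines
  have hline : ∀ s : Fin (n + 1) × (Fin n → ℂ), Sg f (pt s) →
      ∀ (g : MvPolynomial (Fin n) ℂ) (w : Fin n → ℕ) (N : ℕ) (η : Fin n → MvPowerSeries (Fin n) ℂ),
      WHG (germAt s.1 s.2 f) g w N η → 0 < N ∧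
      (-((∑ i, w i : ℕ) : ℤ) * b = a * N → 1 ≤ b'.rootMultiplicity ((a : ℂ) / b)) := by
    intro s hs g w N η hW
    have hn := pos_of_sg hd hf hf0 (pt_ne s) hs
    have hWI := whi hW (cc_germ hd hf hf0 hs) (cc_pd_germ hd hf hf0 hs)
    have hN : 0 < N := lt_of_le_of_lt (Nat.zero_le _) (hWI.lt ⟨0, hn⟩)
    refine ⟨hN, fun h => ?_⟩
    have hK : WHK (germ s.1 s.2 f) g w N η :=
      whg_whk hW (cc_germ hd hf hf0 hs) (cc_pd_germ hd hf hf0 hs)
    have h1 := wgt_root hd hf hf0 (i := s.1) (q := s.2) hs hK b' hB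
    rw [hnum _ _ hN h] at h1
    exact (Polynomial.rootMultiplicity_pos hb'0).2 h1
  set r := b'.rootMultiplicity ((a : ℂ) / b) with hr
  have hDr : ∀ s : Fin (n + 1) × (Fin n → ℂ), Cn s → Sg f (pt s) →
      Od (Lu ℂ) a b (e1 a b + r) (VS M (((Lu ℂ)⁻¹ : (MK ℂ)ˣ) : MK ℂ) (Tb s.1 s.2 1) f) := by
    intro s _ hs
    obtain ⟨g, w, N, η, hW⟩ := H s.1 s.2 hs
    refine (line_o hL hb hd hf hf0 hs hW).mono ?_
    obtain ⟨hN, h1⟩ := hline s hs g w N η hW
    split_ifs with h2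
    · have := h1 h2
      omega
    · omega
  by_cases hvx : -((n + 1 : ℕ) : ℤ) * b = a * d
  swap
  · have h1 := scalar_o hd hf hf0 H hL hb (Nat.le_add_right (e1 a b) r) hDr
    rw [if_neg hvx, add_zero] at h1
    exact h1.mono (rm_ge hB0 hb le_rfl)
  -- the number of the vertex
  have hnv : -((n + 1 : ℕ) : ℂ) / d = (a : ℂ) / b := hnum _ _ (by omega) hvx
  have hlow : ∀ s : Fin (n + 1) × (Fin n → ℂ), Cn s → Sg f (pt s) → ¬ Cz f d s →
      Od (Lu ℂ) a b (e1 a b) (VS M (((Lu ℂ)⁻¹ : (MK ℂ)ˣ) : MK ℂ) (Tb s.1 s.2 1) f) := by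
    intro s _ hs hcz
    obtain ⟨g, w, N, η, hW⟩ := H s.1 s.2 hs
    have h1 := line_o (a := a) (b := b) hL hb hd hf hf0 hs hW
    rwa [if_neg, add_zero] at h1
    intro h2
    apply hcz
    refine ⟨g, w, N, η, hW, ?_⟩
    have h3 : (b : ℤ) * ((d * ∑ t, w t : ℕ) : ℤ) = b * (((n + 1) * N : ℕ) : ℤ) := by
      push_cast at h2 hvx ⊢
      linear_combination (-(d : ℤ)) * h2 + (N : ℤ) * hvx
    exact_mod_cast mul_left_cancel₀ hb.ne' h3
  have hhigh : ∀ s : Fin (n + 1) × (Fin n → ℂ), Cn s → Sg f (pt s) →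
      Od (Lu ℂ) a b (e1 a b + 1) (VS M (((Lu ℂ)⁻¹ : (MK ℂ)ˣ) : MK ℂ) (Tb s.1 s.2 1) f) := by
    intro s _ hs
    obtain ⟨g, w, N, η, hW⟩ := H s.1 s.2 hs
    refine (line_o hL hb hd hf hf0 hs hW).mono ?_
    split_ifs <;> omega
  by_cases hS : ∃ s : Fin (n + 1) × (Fin n → ℂ), Cn s ∧ Sg f (pt s) ∧ Cz f d s
  swap
  · have hno : ∀ s : Fin (n + 1) × (Fin n → ℂ), Cn s → Sg f (pt s) →
        Od (Lu ℂ) a b (e1 a b) (VS M (((Lu ℂ)⁻¹ : (MK ℂ)ˣ) : MK ℂ) (Tb s.1 s.2 1) f) :=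
      fun s h1 h2 => hlow s h1 h2 fun h3 => hS ⟨s, h1, h2, h3⟩
    rcases vertex_root hd hf hf0 H b' hB with h1 | ⟨η, h1, h2⟩
    · rw [hnv] at h1
      have h3 := scalar_o hd hf hf0 H hL hb le_rfl hno
      rw [if_pos hvx] at h3
      exact h3.mono (rm_ge hB0 hb ((Polynomial.rootMultiplicity_pos hb'0).2 h1))
    · exact (div_o hd hf hf0 H hL hb le_rfl hno hvx η h1 h2).mono
        (rm_ge hB0 hb (Nat.zero_le _))
  · obtain ⟨s₀, hs₀⟩ := hS
    -- the root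
    have hr1 : 1 ≤ r := by
      obtain ⟨hCn, hSg, g, w, N, η, hW, hN⟩ := hs₀
      obtain ⟨hNp, h1⟩ := hline s₀ hSg g w N η hW
      apply h1
      have h3 : (d : ℤ) * (-((∑ t, w t : ℕ) : ℤ) * b) = d * (a * N) := by
        have h4 : (d : ℤ) * ((∑ t, w t : ℕ) : ℤ) = ((n + 1 : ℕ) : ℤ) * N := by exact_mod_cast hN
        linear_combination (-b) * h4 + (N : ℤ) * hvx
      have hdz : (d : ℤ) ≠ 0 := by omega
      exact mul_left_cancel₀ hdz h3
    set 𝒮 : Finset (Fin (n + 1) × (Fin n → ℂ)) :=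
      ((finite_lines hd hf hf0 H).toFinset).filter fun s => Cz f d s with h𝒮
    have hmem : ∀ s, s ∈ 𝒮 ↔ Cn s ∧ Sg f (pt s) ∧ Cz f d s := by
      intro s
      rw [h𝒮, Finset.mem_filter, Set.Finite.mem_toFinset, Set.mem_ofPred_eq]
      tauto
    set e := 𝒮.equivFin with he
    have hcard : 0 < 𝒮.card := Finset.card_pos.2 ⟨s₀, (hmem _).2 hs₀⟩
    have hdat : ∀ j, ∃ (g : MvPolynomial (Fin n) ℂ) (w : Fin n → ℕ) (N : ℕ)
        (η : Fin n → MvPowerSeries (Fin n) ℂ),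
        WHK (germ (e.symm j).1.1 (e.symm j).1.2 f) g w N η ∧ d * ∑ t, w t = (n + 1) * N := by
      intro j
      obtain ⟨_, hSg, g, w, N, η, hW, hN⟩ := (hmem _).1 (e.symm j).2
      exact ⟨g, w, N, η, whg_whk hW (cc_germ hd hf hf0 hSg) (cc_pd_germ hd hf hf0 hSg), hN⟩
    rcases dbl_or_fix hd hf hf0 H hcard (fun j => (e.symm j).1)
        (fun j => ((hmem _).1 (e.symm j).2).2.1) hdat b' hB with ⟨h1, h2⟩ | ⟨θ, h1, h2, h3⟩
    · rw [hnv] at h1 h2
      have h3 : 2 ≤ r := (Polynomial.one_lt_rootMultiplicity_iff_isRoot hb'0).2 ⟨h1, h2⟩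
      have h4 := scalar_o hd hf hf0 H hL hb (Nat.le_add_right (e1 a b) 1) hhigh
      rw [if_pos hvx, add_assoc] at h4
      exact h4.mono (rm_ge hB0 hb h3)
    · by_cases htr : constantCoeff (dv θ) = 0
      · refine (fixf_o hd hf hf0 H hL hb le_rfl hhigh hvx θ h1 h2 htr
          fun s hs1 hs2 => ?_).mono (rm_ge hB0 hb hr1)
        by_cases hcz : Cz f d s
        · right
          intro l
          have h4 := h3 (e ⟨s, (hmem s).2 ⟨hs1, hs2, hcz⟩⟩) l
          rw [e.symm_apply_apply] at h4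
          exact h4
        · exact Or.inl (hlow s hs1 hs2 hcz)
      · exact (div_o hd hf hf0 H hL hb (Nat.le_add_right (e1 a b) 1) hhigh hvx θ h2 htr).mono
          (rm_ge hB0 hb hr1)

end Pool.Agent.H940.O
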