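import Pool.Agent.H940.Z.Ser

set_option autoImplicit false
set_option linter.unusedSectionVars false
set_option linter.unusedVariables false

/-! # Series with a bounded number of factors of a given number -/

namespace Pool.Agent.H940.O

open Pool.Agent.W428.MOT Pool.Agent.TH192.MT Pool.Agent.TH192.DT Pool.Agent.Q49.CO
open Pool.Agent.Q57.QM
open Pool.Agent.H940.Z

/-- the pairs with a number different from `a / b` -/
def Cp (a b : ℤ) : Set (ℤ × ℤ) := {q | q.1 < 0 ∧ 0 < q.2 ∧ q.1 * b ≠ a * q.2}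

variable {R : Type} [CommRing R] (u : Rˣ) (a b : ℤ)

/-- `u ^ a T ^ b` -/
noncomputable def mo : PowerSeries R :=
  PowerSeries.C ((u ^ a : Rˣ) : R) * PowerSeries.X ^ b.toNat

/-- the series with at most `m` factors of the number `a / b` -/
def Od (m : ℕ) (Z : PowerSeries R) : Prop :=
  ∃ k : ℕ, 0 < k ∧ (1 - (mo u a b) ^ k) ^ m * Z ∈ ratU u (Cp a b)

variable {u a b}

theorem mo_mem {D : Set (ℤ × ℤ)} : mo u a b ∈ ratU u D :=
  Subalgebra.mul_mem _ (rat_C u _) (Subalgebra.pow_mem _ (rat_X u) _)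

theorem dvd_geo {A : Subalgebra R (PowerSeries R)} {y : PowerSeries R} (hy : y ∈ A) (k l : ℕ) :
    ∃ G ∈ A, (1 - y ^ k) * G = 1 - y ^ (k * l) := by
  refine ⟨∑ i ∈ Finset.range l, (y ^ k) ^ i, Subalgebra.sum_mem _ fun i _ =>
    Subalgebra.pow_mem _ (Subalgebra.pow_mem _ hy _) _, ?_⟩
  have h1 := mul_neg_geom_sum (y ^ k) l
  rw [h1, ← pow_mul]

theorem lift {m k : ℕ} {Z : PowerSeries R} (h : (1 - (mo u a b) ^ k) ^ m * Z ∈ ratU u (Cp a b))
    (l : ℕ) : (1 - (mo u a b) ^ (k * l)) ^ m * Z ∈ ratU u (Cp a b) := by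
  obtain ⟨G, hG, h1⟩ := dvd_geo (mo_mem (u := u) (a := a) (b := b) (D := Cp a b)) k l
  have h2 : (1 - (mo u a b) ^ (k * l)) ^ m * Z = G ^ m * ((1 - (mo u a b) ^ k) ^ m * Z) := by
    rw [← h1, mul_pow]
    ring
  rw [h2]
  exact Subalgebra.mul_mem _ (Subalgebra.pow_mem _ hG _) h

theorem Od.of_mem {Z : PowerSeries R} (h : Z ∈ ratU u (Cp a b)) (m : ℕ) : Od u a b m Z := by
  refine ⟨1, one_pos, Subalgebra.mul_mem _ (Subalgebra.pow_mem _ (Subalgebra.sub_mem _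
    (Subalgebra.one_mem _) (Subalgebra.pow_mem _ mo_mem _)) _) h⟩

theorem Od.mono {m m' : ℕ} (hm : m ≤ m') {Z : PowerSeries R} (h : Od u a b m Z) :
    Od u a b m' Z := by
  obtain ⟨k, hk, h1⟩ := h
  refine ⟨k, hk, ?_⟩
  obtain ⟨l, rfl⟩ := Nat.exists_eq_add_of_le hm
  have h2 : (1 - (mo u a b) ^ k) ^ (m + l) * Z =
      (1 - (mo u a b) ^ k) ^ l * ((1 - (mo u a b) ^ k) ^ m * Z) := by
    rw [pow_add]
    ring
  rw [h2]
  exact Subalgebra.mul_mem _ (Subalgebra.pow_mem _ (Subalgebra.sub_mem _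
    (Subalgebra.one_mem _) (Subalgebra.pow_mem _ mo_mem _)) _) h1

theorem Od.add {m : ℕ} {Z W : PowerSeries R} (h : Od u a b m Z) (h' : Od u a b m W) :
    Od u a b m (Z + W) := by
  obtain ⟨k, hk, h1⟩ := h
  obtain ⟨l, hl, h2⟩ := h'
  refine ⟨k * l, Nat.mul_pos hk hl, ?_⟩
  rw [mul_add]
  refine Subalgebra.add_mem _ (lift h1 l) ?_
  rw [mul_comm k l]
  exact lift h2 k

theorem Od.mul_mem {m : ℕ} {Z W : PowerSeries R} (hW : W ∈ ratU u (Cp a b))
    (h : Od u a b m Z) : Od u a b m (W * Z) := by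
  obtain ⟨k, hk, h1⟩ := h
  refine ⟨k, hk, ?_⟩
  have h2 : (1 - (mo u a b) ^ k) ^ m * (W * Z) = W * ((1 - (mo u a b) ^ k) ^ m * Z) := by ring
  rw [h2]
  exact Subalgebra.mul_mem _ hW h1

theorem Od.neg {m : ℕ} {Z : PowerSeries R} (h : Od u a b m Z) : Od u a b m (-Z) := by
  have h1 := Od.mul_mem (W := -1) (Subalgebra.neg_mem _ (Subalgebra.one_mem _)) h
  rwa [neg_one_mul] at h1

theorem Od.sub {m : ℕ} {Z W : PowerSeries R} (h : Od u a b m Z) (h' : Od u a b m W) :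
    Od u a b m (Z - W) := by
  rw [sub_eq_add_neg]
  exact h.add h'.neg

theorem Od.zero (m : ℕ) : Od u a b m (0 : PowerSeries R) := Od.of_mem (zero_mem _) m

theorem Od.sum {ι : Type} (s : Finset ι) {m : ℕ} {Z : ι → PowerSeries R}
    (h : ∀ i ∈ s, Od u a b m (Z i)) : Od u a b m (∑ i ∈ s, Z i) := by
  classical
  induction s using Finset.induction_on with
  | empty =>
    rw [Finset.sum_empty]
    exact Od.zero m
  | insert i s hi ih =>
    rw [Finset.sum_insert hi]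
    exact (h i (Finset.mem_insert_self _ _)).add
      (ih fun j hj => h j (Finset.mem_insert_of_mem hj))

/-- **A geometric series with another number.** -/
theorem Od.geo {m ν N : ℕ} (hν : 0 < ν) (hN : 0 < N) (hne : -(ν : ℤ) * b ≠ a * N)
    {Z W : PowerSeries R} (hW : Od u a b m W)
    (h : Z = W + PowerSeries.C (((u⁻¹ : Rˣ) : R) ^ ν) * PowerSeries.X ^ N * Z) :
    Od u a b m Z := by
  obtain ⟨k, hk, h1⟩ := hW
  refine ⟨k, hk, ?_⟩
  have hD : (-(ν : ℤ), (N : ℤ)) ∈ Cp a b := ⟨by simp only; omega, by simp only; omega, hne⟩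
  refine geo_solve u (ν := ν) (N := N) hN hD _ _ h1 ?_
  linear_combination (1 - (mo u a b) ^ k) ^ m * h

/-- **A geometric series with the same number.** -/
theorem Od.geo' {m ν N : ℕ} (hN : 0 < N) (hb : 0 < b) (he : -(ν : ℤ) * b = a * N)
    {Z W : PowerSeries R} (hW : Od u a b m W)
    (h : Z = W + PowerSeries.C (((u⁻¹ : Rˣ) : R) ^ ν) * PowerSeries.X ^ N * Z) :
    Od u a b (m + 1) Z := by
  obtain ⟨k, hk, h1⟩ := hW
  set x : PowerSeries R := PowerSeries.C (((u⁻¹ : Rˣ) : R) ^ ν) * PowerSeries.X ^ N with hx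
  have hxm : x ∈ ratU u (Cp a b) :=
    Subalgebra.mul_mem _ (rat_C u _) (Subalgebra.pow_mem _ (rat_X u) _)
  have hxy : x ^ b.toNat = (mo u a b) ^ N := by
    rw [hx, mo, mul_pow, mul_pow, ← pow_mul, ← pow_mul, ← map_pow, ← map_pow]
    have h2 : ((((u⁻¹ : Rˣ) : R)) ^ ν) ^ b.toNat = (((u ^ a : Rˣ) : R)) ^ N := by
      rw [inv_pow_eq, ← Units.val_pow_eq_pow_val, ← Units.val_pow_eq_pow_val, ← zpow_natCast,
        ← zpow_natCast, ← zpow_mul, ← zpow_mul, Int.toNat_of_nonneg hb.le, he]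
    rw [h2, mul_comm N]
  obtain ⟨G, hG, h3⟩ := dvd_geo hxm 1 b.toNat
  rw [pow_one, one_mul, hxy] at h3
  have h4 : (1 - (mo u a b) ^ N) * Z = G * W := by
    have h5 : (1 - x) * Z = W := by linear_combination h
    rw [← h3, ← h5]
    ring
  obtain ⟨G1, hG1, h6⟩ := dvd_geo (mo_mem (u := u) (a := a) (b := b) (D := Cp a b)) k N
  obtain ⟨G2, hG2, h7⟩ := dvd_geo (mo_mem (u := u) (a := a) (b := b) (D := Cp a b)) N k
  rw [mul_comm N k] at h7
  refine ⟨k * N, Nat.mul_pos hk hN, ?_⟩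
  have h8 : (1 - (mo u a b) ^ (k * N)) ^ (m + 1) * Z =
      G1 ^ m * G2 * G * ((1 - (mo u a b) ^ k) ^ m * W) := by
    have h9 : (1 - (mo u a b) ^ (k * N)) ^ (m + 1) =
        ((1 - (mo u a b) ^ k) * G1) ^ m * ((1 - (mo u a b) ^ N) * G2) := by
      rw [h6, h7, pow_succ]
    rw [h9, mul_pow]
    linear_combination ((1 - (mo u a b) ^ k) ^ m * G1 ^ m * G2) * h4
  rw [h8]
  exact Subalgebra.mul_mem _ (Subalgebra.mul_mem _ (Subalgebra.mul_mem _
    (Subalgebra.pow_mem _ hG1 _) hG2) hG) h1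

open Classical in
/-- both cases -/
theorem Od.geoI {m ν N : ℕ} (hν : 0 < ν) (hN : 0 < N) (hb : 0 < b)
    {Z W : PowerSeries R} (hW : Od u a b m W)
    (h : Z = W + PowerSeries.C (((u⁻¹ : Rˣ) : R) ^ ν) * PowerSeries.X ^ N * Z) :
    Od u a b (m + if -(ν : ℤ) * b = a * N then 1 else 0) Z := by
  split_ifs with he
  · exact Od.geo' hN hb he hW h
  · exact Od.geo hν hN he hW h

/-- polynomials -/
theorem Od.tail (m : ℕ) (Z : PowerSeries R) (N₀ : ℕ)
    (h : ∀ N, N₀ ≤ N → PowerSeries.coeff N Z = 0) : Od u a b m Z :=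
  Od.of_mem (rat_tail u Z N₀ h) m

end Pool.Agent.H940.O
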