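import Pool.Agent.H940.O.LocO

set_option autoImplicit false
set_option linter.unusedSectionVars false
set_option linter.unusedVariables false

/-! # The arcs outside of the origin, with orders -/

namespace Pool.Agent.H940.O

open MvPolynomial Pool.Agent.W428.MOT Pool.Agent.TH192.MT Pool.Agent.TH192.DT Pool.Agent.Q49.CO
open Pool.Agent.Q57.QM Pool.Agent.Y229 Pool.Agent.Q57.MC Pool.Agent.Q57.MD
open Pool.Agent.H940.LT (eval_homog euler_hom)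
open Pool.Agent.H940.Z Pool.Agent.H940.G

variable {n : ℕ} {f : MvPolynomial (Fin (n + 1)) ℂ} {d : ℕ} (hd : 2 ≤ d) (hf : f.IsHomogeneous d)
  (hf0 : f ≠ 0) (H : LH f) {M : Meas ℂ (MK ℂ)} (hL : M.L = ((Lu ℂ : (MK ℂ)ˣ) : MK ℂ))
  {a b : ℤ} (hb : 0 < b)
include hd hf hf0 H hL hb

/-- **Volumes outside of the origin.** -/
theorem out_o {m : ℕ} (hm : e1 a b ≤ m) {P : Arc ℂ (Fin (n + 1)) → Prop} {q : ℕ} (hP : Cyl P q)
    (hPo : ∀ γ, P γ → ¬ Or γ) (k : ℕ) (hk : 1 ≤ k)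
    (hD : ∀ s : Fin (n + 1) × (Fin n → ℂ), Cn s → Sg f (pt s) →
      (∀ γ, Tb s.1 s.2 k γ → ¬ P γ) ∨ ((∀ γ, Tb s.1 s.2 k γ → P γ) ∧
        Od (Lu ℂ) a b m (VS M (((Lu ℂ)⁻¹ : (MK ℂ)ˣ) : MK ℂ) (Tb s.1 s.2 1) f))) :
    Od (Lu ℂ) a b m (VS M (((Lu ℂ)⁻¹ : (MK ℂ)ˣ) : MK ℂ) P f) := by
  classical
  have hv : M.L * (((Lu ℂ)⁻¹ : (MK ℂ)ˣ) : MK ℂ) = 1 := by rw [hL, Units.mul_inv]
  set T := (finite_lines hd hf hf0 H).toFinset with hT
  have hTm : ∀ s, s ∈ T ↔ Cn s ∧ Sg f (pt s) := fun s => Set.Finite.mem_toFinset _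
  have hcT : Cyl (fun γ : Arc ℂ (Fin (n + 1)) => ∃ s ∈ T, Tb s.1 s.2 1 γ) 1 := by
    have h1 : (fun γ : Arc ℂ (Fin (n + 1)) => ∃ s ∈ T, Tb s.1 s.2 1 γ) =
        fun γ => ∃ s : T, Tb s.1.1 s.1.2 1 γ :=
      funext fun γ => propext ⟨fun ⟨s, hs, h⟩ => ⟨⟨s, hs⟩, h⟩, fun ⟨s, h⟩ => ⟨s.1, s.2, h⟩⟩
    rw [h1]
    exact Cyl.ex fun s => cyl_Tb _ _ 1
  rw [VS_split M hv hP hcT f]
  refine Od.add ?_ ?_
  · have h1 : (fun γ => P γ ∧ ∃ s ∈ T, Tb s.1 s.2 1 γ) =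
        fun γ => ∃ s ∈ T, P γ ∧ Tb s.1 s.2 1 γ :=
      funext fun γ => propext ⟨fun ⟨h, s, hs, h2⟩ => ⟨s, hs, h, h2⟩,
        fun ⟨s, hs, h, h2⟩ => ⟨h, s, hs, h2⟩⟩
    rw [h1, VS_sum M hv T (q := max q 1) (fun s _ => (hP.mono (le_max_left _ _)).and
      ((cyl_Tb _ _ 1).mono (le_max_right _ _))) (by
        rintro s hs s' hs' hne γ ⟨_, h2⟩ ⟨_, h3⟩
        obtain ⟨p, hp⟩ := origin_pt γ
        exact hne (((tb_on hp).1 h2).unique ((hTm s).1 hs).1 ((hTm s').1 hs').1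
          ((tb_on hp).1 h3))) f]
    refine Od.sum _ fun s hs => ?_
    obtain ⟨hs1, hs2⟩ := (hTm s).1 hs
    obtain ⟨L, U, hU, hmem⟩ := pow_line hd hf hf0 H hs2
    have hbd : ∀ γ, Tb s.1 s.2 1 γ → ¬ Tb s.1 s.2 k γ →
        ∃ j, ¬ Vn ((L + 1) * k) (aeval γ (pderiv j f)) := fun γ h2 h3 =>
      line_bdd f s.1 s.2 L U (fun x hx hx' => hU x ⟨hx, hx'⟩) hmem k γ h2 h3
    have hcP : Cyl (fun γ => P γ ∧ Tb s.1 s.2 1 γ) (max q 1) :=
      (hP.mono (le_max_left _ _)).and ((cyl_Tb _ _ 1).mono (le_max_right _ _))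
    rw [VS_split M hv hcP (cyl_Tb s.1 s.2 k) f]
    refine Od.add ?_ ?_
    · rcases hD s hs1 hs2 with h2 | ⟨h2, hOd⟩
      · rw [VS_false M hv (fun γ h => h2 γ h.2 h.1.1) f]
        exact Od.zero _
      · have h3 : (fun γ => (P γ ∧ Tb s.1 s.2 1 γ) ∧ Tb s.1 s.2 k γ) = Tb s.1 s.2 k :=
          funext fun γ => propext ⟨fun h => h.2, fun h => ⟨⟨h2 γ h, Tb_mono hk h⟩, h⟩⟩
        have h4 := VS_split M hv (cyl_Tb s.1 s.2 1) (cyl_Tb s.1 s.2 k) f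
        have h5 : (fun γ => Tb s.1 s.2 1 γ ∧ Tb s.1 s.2 k γ) = Tb s.1 s.2 k :=
          funext fun γ => propext ⟨fun h => h.2, fun h => ⟨Tb_mono hk h, h⟩⟩
        rw [h5] at h4
        rw [h3, ← sub_eq_iff_eq_add.2 h4]
        exact hOd.sub ((VS_bdd_o M (Lu ℂ) hb hL f _
          (((cyl_Tb s.1 s.2 1).mono (le_max_left _ _)).and
            ((cyl_Tb s.1 s.2 k).mono (le_max_right _ _)).not) fun γ h => hbd γ h.1 h.2).mono hm)
    · exact (VS_bdd_o M (Lu ℂ) hb hL f _ ((hcP.mono (le_max_left _ _)).and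
        ((cyl_Tb s.1 s.2 k).mono (le_max_right _ _)).not) fun γ h => hbd γ h.1.2 h.2).mono hm
  · refine (VS_bdd_o M (Lu ℂ) hb hL f 1 ((hP.mono (le_max_left _ _)).and
      (hcT.mono (le_max_right _ _)).not) fun γ ⟨h1, h2⟩ => ?_).mono hm
    by_contra hc
    push Not at hc
    obtain ⟨p, hp⟩ := origin_pt γ
    have hp0 : p ≠ 0 := by
      intro h0
      refine hPo γ h1 fun j => ?_
      rw [hp, h0, Pi.zero_apply, map_zero]
    have hsg : Sg f p := by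
      intro j
      have h3 := hc j 0 one_pos
      rw [coeff_zero_aevalK] at h3
      have h4 : (fun j => PowerSeries.coeff 0 (γ j)) =
          fun j => algebraMap ℂ (AlgebraicClosure ℂ) (p j) := funext hp
      rw [h4] at h3
      exact (aeval_pt_zero _ _).1 h3
    obtain ⟨s, hs1, hs2⟩ := exists_On p hp0
    exact h2 ⟨s, (hTm s).2 ⟨hs1, hs2.sg hf hsg⟩, (tb_on hp).2 hs2⟩

omit hd hf hf0 H hL hb

/-- the conditions on the boxes near a line -/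
theorem box_near (A : Matrix (Fin (n + 1)) (Fin (n + 1)) ℂ) (m : Fin (n + 1) → ℕ)
    (s : Fin (n + 1) × (Fin n → ℂ)) (k : ℕ) (hk : ∀ i, m i ≤ k) {γ : Arc ℂ (Fin (n + 1))}
    (h : Tb s.1 s.2 k γ) : Box A m γ ↔ ∀ i, m i = 0 ∨ A.mulVec (pt s) i = 0 := by
  unfold Box
  refine forall_congr' fun i => ?_
  rw [vn_sub_iff (tb_la h A i) (hk i)]
  constructor
  · intro h1
    rw [or_iff_not_imp_left]
    intro hm
    have h2 := h1 0 (Nat.pos_of_ne_zero hm)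
    rw [PowerSeries.coeff_C_mul] at h2
    exact (map_eq_zero_iff _ (algebraMap ℂ (AlgebraicClosure ℂ)).injective).1
      ((mul_eq_zero.1 h2).resolve_right h.1)
  · rintro (h1 | h1)
    · rw [h1]
      exact fun j hj => absurd hj (Nat.not_lt_zero j)
    · rw [h1, map_zero, map_zero, zero_mul]
      intro j _
      rw [map_zero]

end Pool.Agent.H940.O
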