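import Pool.Agent.H940.O.Od
import Pool.Graph.R_pool_sql_team_seeded_3997aac3.Q57.MC.Top

set_option autoImplicit false
set_option linter.unusedSectionVars false
set_option linter.unusedVariables false

/-! # The orders of the poles of the topological zeta function -/

namespace Pool.Agent.H940.O

open Pool.Agent.W428.MOT Pool.Agent.TH192.MT Pool.Agent.TH192.DT Pool.Agent.TH192.MU
open Pool.Agent.Q57.MC

section

variable {R₀ R : Type} [CommRing R₀] [CommRing R] [IsDomain R] (ε : R →+* ℂ) (E : R₀ →+* R)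
  (u : R₀ˣ) (w : R)

/-- `Q(w ^ s)` is `(1 - w) ^ M` times an element with the value `B(s)`, where `s₀` is a root of `B` of
multiplicity at most `m` -/
def Dn (s₀ : ℂ) (m : ℕ) (Q : Polynomial R₀) : Prop :=
  ∃ (M : ℕ) (B : Polynomial ℂ), B.rootMultiplicity s₀ ≤ m ∧
    B ≠ 0 ∧ ∀ s : ℕ, ∃ q : R, (Q.map E).eval (w ^ (s + 1)) = (1 - w) ^ M * q ∧
      ε q = B.eval ((s + 1 : ℕ) : ℂ)

variable {ε E u w}

theorem Dn.mul {s₀ : ℂ} {m m' : ℕ} {Q Q' : Polynomial R₀} (h : Dn ε E w s₀ m Q)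
    (h' : Dn ε E w s₀ m' Q') : Dn ε E w s₀ (m + m') (Q * Q') := by
  obtain ⟨M, B, h1, h2, h3⟩ := h
  obtain ⟨M', B', h1', h2', h3'⟩ := h'
  refine ⟨M + M', B * B', ?_, mul_ne_zero h2 h2', fun s => ?_⟩
  · rw [Polynomial.rootMultiplicity_mul (mul_ne_zero h2 h2')]
    exact Nat.add_le_add h1 h1'
  · obtain ⟨q, hq, hq'⟩ := h3 s
    obtain ⟨p, hp, hp'⟩ := h3' s
    refine ⟨q * p, ?_, ?_⟩
    · rw [Polynomial.map_mul, Polynomial.eval_mul, hq, hp, pow_add]
      ring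
    · rw [map_mul, hq', hp', Polynomial.eval_mul]

theorem Dn.of_den {s₀ : ℂ} {D : Set (ℤ × ℤ)} (hD : ∀ q ∈ D, s₀ ≠ (q.1 : ℂ) / q.2)
    {Q : Polynomial R₀} (h : Den ε E w D Q) : Dn ε E w s₀ 0 Q := by
  obtain ⟨M, B, h1, h2, h3⟩ := h
  refine ⟨M, B, le_of_eq ?_, h2, h3⟩
  refine Polynomial.rootMultiplicity_eq_zero fun h4 => ?_
  obtain ⟨q, hq, h5⟩ := h1 s₀ h4
  exact hD q hq h5

theorem Dn.one {s₀ : ℂ} : Dn ε E w s₀ 0 (1 : Polynomial R₀) :=
  Dn.of_den (D := ∅) (fun q hq => absurd hq (Set.notMem_empty q)) Den.one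

theorem Dn.pow {s₀ : ℂ} {m : ℕ} {Q : Polynomial R₀} (h : Dn ε E w s₀ m Q) (k : ℕ) :
    Dn ε E w s₀ (k * m) (Q ^ k) := by
  induction k with
  | zero =>
    rw [pow_zero, zero_mul]
    exact Dn.one
  | succ k ih =>
    rw [pow_succ, Nat.succ_mul]
    exact ih.mul h

/-- the factors `1 - u ^ a T ^ b` -/
theorem Dn.fac (hw : E (u : R₀) * w = 1) (hε : ε w = 1) {a b : ℤ} (ha : a < 0)
    (hb : 0 < b) (s₀ : ℂ) :
    Dn ε E w s₀ 1 (1 - Polynomial.C ((u ^ a : R₀ˣ) : R₀) * Polynomial.X ^ b.toNat) := by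
  have hB0 : (Polynomial.C (b : ℂ) * Polynomial.X - Polynomial.C (a : ℂ)) ≠ 0 := by
    intro h0
    have h1 := congrArg (Polynomial.eval 0) h0
    rw [Polynomial.eval_sub, Polynomial.eval_mul, Polynomial.eval_X, mul_zero, Polynomial.eval_C,
      zero_sub, Polynomial.eval_zero, neg_eq_zero] at h1
    have : a = 0 := by exact_mod_cast h1
    omega
  refine ⟨1, Polynomial.C (b : ℂ) * Polynomial.X - Polynomial.C (a : ℂ), ?_, hB0, fun s => ?_⟩
  · rw [← Polynomial.count_roots]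
    refine ((Multiset.count_le_card _ _).trans (Polynomial.card_roots' _)).trans ?_
    have h1 : (Polynomial.C (b : ℂ) * Polynomial.X - Polynomial.C (a : ℂ)) =
        Polynomial.C (b : ℂ) * Polynomial.X + Polynomial.C (-(a : ℂ)) := by
      rw [Polynomial.C_neg, sub_eq_add_neg]
    rw [h1]
    exact Polynomial.natDegree_linear_le
  · obtain ⟨k, hk⟩ : ∃ k : ℕ, (k : ℤ) = b * (s + 1 : ℕ) - a := by
      refine ⟨(b * (s + 1 : ℕ) - a).toNat, Int.toNat_of_nonneg ?_⟩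
      have : 0 ≤ b * (s + 1 : ℕ) := by positivity
      omega
    have h1 : E ((u ^ a : R₀ˣ) : R₀) * (w ^ (s + 1)) ^ b.toNat = w ^ k := by
      obtain ⟨c, hc⟩ : ∃ c : ℕ, a = -(c : ℤ) := ⟨(-a).toNat, by omega⟩
      have h2 : E ((u ^ a : R₀ˣ) : R₀) = w ^ c := by
        have h3 : (u : R₀) ^ c * ((u ^ a : R₀ˣ) : R₀) = 1 := by
          rw [← Units.val_pow_eq_pow_val, ← Units.val_mul, hc, ← zpow_natCast, ← zpow_add,
            add_neg_cancel, zpow_zero, Units.val_one]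
        have h4 := congrArg E h3
        rw [map_mul, map_pow, map_one] at h4
        have h5 : (E (u : R₀)) ^ c * w ^ c = 1 := by rw [← mul_pow, hw, one_pow]
        calc E ((u ^ a : R₀ˣ) : R₀) = ((E (u : R₀)) ^ c * w ^ c) * E ((u ^ a : R₀ˣ) : R₀) := by
              rw [h5, one_mul]
          _ = w ^ c * ((E (u : R₀)) ^ c * E ((u ^ a : R₀ˣ) : R₀)) := by ring
          _ = w ^ c := by rw [h4, mul_one]
      rw [h2, ← pow_mul, ← pow_add]
      congr 1
      have h6 : ((c + (s + 1) * b.toNat : ℕ) : ℤ) = (k : ℤ) := by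
        rw [hk]
        push_cast
        rw [Int.toNat_of_nonneg hb.le, hc]
        ring
      exact_mod_cast h6
    refine ⟨∑ i ∈ Finset.range k, w ^ i, ?_, ?_⟩
    · rw [Polynomial.map_sub, Polynomial.map_one, Polynomial.map_mul, Polynomial.map_pow,
        Polynomial.map_X, Polynomial.map_C, Polynomial.eval_sub, Polynomial.eval_one,
        Polynomial.eval_mul, Polynomial.eval_pow, Polynomial.eval_X, Polynomial.eval_C, h1,
        pow_one]
      have h7 := mul_geom_sum w k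
      linear_combination h7
    · rw [map_sum]
      simp only [map_pow, hε, one_pow, Finset.sum_const, Finset.card_range, nsmul_eq_mul, mul_one]
      have h8 := congrArg (fun z : ℤ => (z : ℂ)) hk
      push_cast at h8
      rw [Polynomial.eval_sub, Polynomial.eval_mul, Polynomial.eval_C, Polynomial.eval_X,
        Polynomial.eval_C]
      push_cast
      exact h8

theorem mo_pow {a b : ℤ} (hb : 0 < b) (k : ℕ) : (mo u a b) ^ k =
    ((Polynomial.C ((u ^ ((k : ℤ) * a) : R₀ˣ) : R₀) *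
      Polynomial.X ^ ((k : ℤ) * b).toNat : Polynomial R₀) : PowerSeries R₀) := by
  rw [Polynomial.coe_mul, Polynomial.coe_C, Polynomial.coe_pow, Polynomial.coe_X, mo, mul_pow,
    ← pow_mul, ← map_pow]
  have h1 : ((u ^ a : R₀ˣ) : R₀) ^ k = ((u ^ ((k : ℤ) * a) : R₀ˣ) : R₀) := by
    rw [← Units.val_pow_eq_pow_val, ← zpow_natCast, ← zpow_mul, mul_comm]
  have h2 : b.toNat * k = ((k : ℤ) * b).toNat := by
    have h3 : ((b.toNat * k : ℕ) : ℤ) = (((k : ℤ) * b).toNat : ℤ) := by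
      rw [Int.toNat_of_nonneg (by positivity)]
      push_cast
      rw [Int.toNat_of_nonneg hb.le, mul_comm]
    exact_mod_cast h3
  rw [h1, h2]

/-- the denominators of the series with bounded orders -/
theorem exists_dn (hw : E (u : R₀) * w = 1) (hε : ε w = 1) {a b : ℤ} (ha : a < 0) (hb : 0 < b)
    {m : ℕ} {Z : PowerSeries R₀} (h : Od u a b m Z) :
    ∃ Q P : Polynomial R₀, Dn ε E w ((a : ℂ) / b) m Q ∧
      (Q : PowerSeries R₀) * Z = (P : PowerSeries R₀) := by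
  obtain ⟨k, hk, h1⟩ := h
  obtain ⟨Q, P, h2, h3⟩ := exists_den (E := E) (ε := ε) hw hε
    (fun q (hq : q ∈ Cp a b) => ⟨hq.1, hq.2.1⟩) _ h1
  have hb0 : (b : ℂ) ≠ 0 := by exact_mod_cast hb.ne'
  have h4 : Dn ε E w ((a : ℂ) / b) 0 Q := by
    refine Dn.of_den (fun q hq h5 => ?_) h2
    obtain ⟨h6, h7, h8⟩ := hq
    apply h8
    have h9 : (q.2 : ℂ) ≠ 0 := by exact_mod_cast h7.ne'
    rw [div_eq_div_iff hb0 h9] at h5
    have h10 : ((q.1 * b : ℤ) : ℂ) = ((a * q.2 : ℤ) : ℂ) := by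
      push_cast
      exact h5.symm
    exact_mod_cast h10
  have hk' : (0 : ℤ) < k := by exact_mod_cast hk
  have h5 := Dn.fac (E := E) (ε := ε) hw hε (a := (k : ℤ) * a) (b := (k : ℤ) * b)
    (mul_neg_of_pos_of_neg hk' ha) (mul_pos hk' hb) ((a : ℂ) / b)
  refine ⟨Q * (1 - Polynomial.C ((u ^ ((k : ℤ) * a) : R₀ˣ) : R₀) *
    Polynomial.X ^ ((k : ℤ) * b).toNat) ^ m, P, ?_, ?_⟩
  · have h6 := h4.mul (h5.pow m)
    rwa [zero_add, mul_one] at h6
  · rw [Polynomial.coe_mul, Polynomial.coe_pow, Polynomial.coe_sub, Polynomial.coe_one,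
      ← mo_pow hb, ← h3]
    ring

end

/-- **The orders of the poles of the topological zeta function.** -/
theorem top_order {R : Type} [CommRing R] [IsDomain R] (E : MK ℂ →+* R) (ε : R →+* ℂ)
    (hε : ε (E ((Lu ℂ : (MK ℂ)ˣ) : MK ℂ)) = 1) (hE : E ((Lu ℂ : (MK ℂ)ˣ) : MK ℂ) ≠ 1)
    {a b : ℤ} (ha : a < 0) (hb : 0 < b) {m : ℕ} {Zm : PowerSeries (MK ℂ)}
    (h : Od (Lu ℂ) a b m Zm) (Z : RatFunc ℂ) (hZ : IsTopZeta E ε Zm Z) :
    Z.denom.rootMultiplicity ((a : ℂ) / b) ≤ m := by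
  classical
  set U : Rˣ := Units.map (E : MK ℂ →* R) (Lu ℂ) with hU
  set w : R := ((U⁻¹ : Rˣ) : R) with hwd
  have hUE : (U : R) = E ((Lu ℂ : (MK ℂ)ˣ) : MK ℂ) := rfl
  have hw : E ((Lu ℂ : (MK ℂ)ˣ) : MK ℂ) * w = 1 := by
    rw [← hUE, hwd, Units.mul_inv]
  have hεw : ε w = 1 := by
    have h1 := congrArg ε hw
    rw [map_mul, hε, one_mul, map_one] at h1
    exact h1
  have hw1 : w ≠ 1 := by
    intro h0
    rw [h0, mul_one] at hw
    exact hE hw
  obtain ⟨Q, P, ⟨M, B, hB1, hB2, hB3⟩, hQP⟩ := exists_dn (E := E) (ε := ε) hw hεw ha hb h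
  have hQPE : ((Q.map E : Polynomial R) : PowerSeries R) * PowerSeries.map E Zm =
      ((P.map E : Polynomial R) : PowerSeries R) := by
    have h1 := congrArg (PowerSeries.map E) hQP
    rw [map_mul, ← Polynomial.polynomial_map_coe, ← Polynomial.polynomial_map_coe] at h1
    exact h1
  choose c hc1 hc2 using fun n : ℕ => hZ (n + 1) (Nat.succ_pos n)
  choose q hq1 hq2 using hB3
  have key : ∀ n, ∃ x y : R, (P.map E).eval (w ^ (n + 1)) * y = (1 - w) ^ M * x ∧ ε y ≠ 0 ∧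
      ε x = c n * B.eval ((n + 1 : ℕ) : ℂ) * ε y := by
    intro n
    obtain ⟨P', Q', x, y, h1, h2, h3, h4, h5⟩ := hc1 n
    have hval : (((U⁻¹) ^ (n + 1) : Rˣ) : R) = w ^ (n + 1) := by
      rw [Units.val_pow_eq_pow_val]
    rw [hval] at h2 h3
    refine ⟨x * q n, y, ?_, h4, ?_⟩
    · have h6 : Q' * P.map E = Q.map E * P' := by
        apply Polynomial.coe_injective
        rw [Polynomial.coe_mul, Polynomial.coe_mul, ← h1, ← hQPE]
        ring
      have h7 := congrArg (Polynomial.eval (w ^ (n + 1))) h6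
      rw [Polynomial.eval_mul, Polynomial.eval_mul, hq1] at h7
      apply mul_left_cancel₀ h2
      linear_combination y * h7 + ((1 - w) ^ M * q n) * h3
    · rw [map_mul, h5, hq2]
      ring
  choose x y hxy hy hx using key
  obtain ⟨W, hW⟩ := exists_poly ε w hw1 hεw (P.map E) M x y hy hxy
  have hWc : ∀ n : ℕ, c n * B.eval ((n + 1 : ℕ) : ℂ) = W.eval (n : ℂ) := by
    intro n
    have h1 := hW n
    rw [hx] at h1
    exact mul_right_cancel₀ (hy n) h1
  have hpoly : Z.num * B = Z.denom * W.comp (Polynomial.X - 1) := by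
    refine Polynomial.eq_of_infinite_eval_eq _ _ ?_
    have hinj : Function.Injective fun n : ℕ => (((n + 1 : ℕ) : ℕ) : ℂ) := by
      intro a b hab
      have h0 : ((a + 1 : ℕ) : ℂ) = ((b + 1 : ℕ) : ℂ) := hab
      have : (a + 1 : ℕ) = b + 1 := by exact_mod_cast h0
      omega
    refine (Set.infinite_range_of_injective hinj).mono ?_
    rintro _ ⟨n, rfl⟩
    change (Z.num * B).eval ((n + 1 : ℕ) : ℂ) =
      (Z.denom * W.comp (Polynomial.X - 1)).eval ((n + 1 : ℕ) : ℂ)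
    rw [Polynomial.eval_mul, Polynomial.eval_mul, hc2, Polynomial.eval_comp,
      Polynomial.eval_sub, Polynomial.eval_X, Polynomial.eval_one]
    have h1 : (((n + 1 : ℕ) : ℂ) - 1) = n := by push_cast; ring
    rw [h1, ← hWc]
    ring
  have hdvd : Z.denom ∣ B :=
    (RatFunc.isCoprime_num_denom Z).symm.dvd_of_dvd_mul_left ⟨_, hpoly⟩
  exact (Polynomial.rootMultiplicity_le_rootMultiplicity_of_dvd hB2 hdvd _).trans hB1

end Pool.Agent.H940.O
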