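import Pool.Agent.H940.O.MainO
import Pool.Agent.H940.O.TopO
import Pool.Agent.H940.G.Top
import Pool.Graph.R_seed8.Y229.LP2

set_option autoImplicit false
set_option linter.unusedSectionVars false
set_option linter.unusedVariables false

/-! # The orders of the poles of the topological zeta functions -/

namespace Pool.Agent.H940.O

open MvPolynomial Pool.Agent.W428.MOT Pool.Agent.TH192.MT Pool.Agent.TH192.DT Pool.Agent.Q49.CO
open Pool.Agent.Q57.QM Pool.Agent.Y229 Pool.Agent.Q57.MC Pool.Agent.Q57.MD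
open Pool.Agent.TH192.MU (zetaId IsTopZeta)
open Pool.Agent.H628R4.TP (IsBFunction)
open Pool.Agent.W574.SM (IsFunctionalEq)
open Pool.Agent.H940.Z Pool.Agent.H940.G

section

variable {R : Type} [CommRing R] {u : Rˣ} {a b : ℤ}

theorem cc_mo (hb : 0 < b) : PowerSeries.coeff 0 (mo u a b : PowerSeries R) = 0 := by
  unfold mo
  rw [PowerSeries.coeff_zero_eq_constantCoeff_apply, map_mul, map_pow,
    PowerSeries.constantCoeff_X, zero_pow (by omega), mul_zero]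

theorem Od.sh (hb : 0 < b) {m : ℕ} {Z : PowerSeries R} (h : Od u a b m Z) :
    Od u a b m (sh Z) := by
  obtain ⟨k, hk, h1⟩ := h
  refine ⟨k, hk, ?_⟩
  set D : PowerSeries R := (1 - (mo u a b) ^ k) ^ m with hD
  have hDm : D ∈ ratU u (Cp a b) := Subalgebra.pow_mem _ (Subalgebra.sub_mem _
    (Subalgebra.one_mem _) (Subalgebra.pow_mem _ mo_mem _)) _
  have hc : PowerSeries.coeff 0 D = 1 := by
    have h2 := cc_mo (u := u) (a := a) hb
    rw [PowerSeries.coeff_zero_eq_constantCoeff_apply] at h2 ⊢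
    rw [hD, map_pow, map_sub, map_one, map_pow, h2, zero_pow hk.ne', sub_zero, one_pow]
  have hpos : ∀ q ∈ Cp a b, 0 < q.2 := fun q hq => hq.2.1
  have h2 := sh_mem u hpos h1
  have h3 := sh_mul D Z
  rw [hc, map_one, one_mul] at h3
  have h4 : D * Pool.Agent.Q57.MD.sh Z = D * Pool.Agent.Q57.MD.sh (D * Z) -
      Pool.Agent.Q57.MD.sh D * (D * Z) := by
    rw [h3]
    ring
  rw [h4]
  exact Subalgebra.sub_mem _ (Subalgebra.mul_mem _ hDm h2)
    (Subalgebra.mul_mem _ (sh_mem u hpos hDm) h1)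

end

variable {n : ℕ} {f : MvPolynomial (Fin (n + 1)) ℂ} {d : ℕ} (hd : 2 ≤ d) (hf : f.IsHomogeneous d)
  (hf0 : f ≠ 0) (H : LH f)
include hd hf hf0 H

/-- **The orders of the poles of the motivic zeta function.** -/
theorem mot_order {a b : ℤ} (ha : a < 0) (hb : 0 < b) (B : Polynomial ℂ)
    (hB : IsBFunction f B) (hB0 : B ≠ 0) :
    Od (Lu ℂ) a b (B.rootMultiplicity ((a : ℂ) / b)) (zetaId (fun _ : Fin 1 => f)) ∧
    Od (Lu ℂ) a b (B.rootMultiplicity ((a : ℂ) / b)) (zetaJ (fun _ : Fin 1 => f)) := by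
  obtain ⟨M, hL, hχ⟩ := exists_meas ℂ
  have hv : M.L * (((Lu ℂ)⁻¹ : (MK ℂ)ˣ) : MK ℂ) = 1 := by rw [hL, Units.mul_inv]
  have h1 := all_o hd hf hf0 H hL hb ha B hB hB0
  constructor
  · rw [zetaId_eq hL hχ, ZW_eq, vw_univ hv]
    exact od_CX _ (h1.sub (h1.sh hb))
  · have h2 := zetaJ_eq hL hχ (fun _ : Fin 1 => f)
    have h3 : zetaJ (fun _ : Fin 1 => f) = ZW M (((Lu ℂ)⁻¹ : (MK ℂ)ˣ) : MK ℂ) (fun _ : Fin 1 => f) {0} -
        PowerSeries.C (PowerSeries.coeff 0 (ZW M (((Lu ℂ)⁻¹ : (MK ℂ)ˣ) : MK ℂ)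
          (fun _ : Fin 1 => f) {0})) := by
      rw [eq_sub_iff_add_eq]
      exact h2.symm
    have hor : Od (Lu ℂ) a b (B.rootMultiplicity ((a : ℂ) / b))
        (VS M (((Lu ℂ)⁻¹ : (MK ℂ)ˣ) : MK ℂ) Or f) := by
      rw [VS_tt M hv (A := 1) (B := 1) (mul_one _) (mul_one _) (fun _ => 1) f d (by
        intro γ
        rw [tt_one, aeval_homog f d hf γ]) (cyl_Or 0) (by
        rintro γ h i
        rw [la_one]
        intro j hj
        have : j = 0 := by omega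
        rw [this]
        exact h i)]
      have h2 : (fun γ : Arc ℂ (Fin (n + 1)) => Or (tt 1 1 (fun _ => 1) γ)) = fun _ => True := by
        refine funext fun γ => propext ⟨fun _ => trivial, fun _ i => ?_⟩
        rw [tt_one]
        rw [PowerSeries.coeff_zero_X_mul]
      rw [h2]
      exact od_CX _ ((od_geo _ _ _).add (Od.mul_mem (Subalgebra.pow_mem _ (rat_X _) _) h1))
    rw [h3, ZW_eq, vw_zero hv]
    exact (hor.sub (hor.sh hb)).sub (Od.of_mem (rat_C _ _) _)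

variable {R : Type} [CommRing R] [IsDomain R] (E : MK ℂ →+* R) (ε : R →+* ℂ)
  (hε : ε (E ((Lu ℂ : (MK ℂ)ˣ) : MK ℂ)) = 1) (hE : E ((Lu ℂ : (MK ℂ)ˣ) : MK ℂ) ≠ 1)
include hε hE

/-- the poles are negative rational numbers -/
theorem pole_rat (Z : RatFunc ℂ) (hZ : IsTopZeta E ε (zetaId (fun _ : Fin 1 => f)) Z ∨
      IsTopZeta E ε (zetaJ (fun _ : Fin 1 => f)) Z) (s₀ : ℂ)
    (hs : Z.denom.eval s₀ = 0) : ∃ a b : ℤ, a < 0 ∧ 0 < b ∧ s₀ = (a : ℂ) / b := by
  rcases hZ with hZ | hZ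
  · obtain ⟨S, hS, hz⟩ := mot_global hd hf hf0 H ∅ (fun α hα => absurd hα (Finset.notMem_empty α))
    obtain ⟨q, hq, h1⟩ := top_poles E ε hε hE _ (fun q hq => ⟨(hS q hq).1, (hS q hq).2.1⟩) _ hz Z
      hZ s₀ hs
    exact ⟨q.1, q.2, (hS q hq).1, (hS q hq).2.1, h1⟩
  · obtain ⟨S, hS, hz⟩ := mot_local hd hf hf0 H ∅ (fun α hα => absurd hα (Finset.notMem_empty α))
    obtain ⟨q, hq, h1⟩ := top_poles E ε hε hE _ (fun q hq => ⟨(hS q hq).1, (hS q hq).2.1⟩) _ hz Z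
      hZ s₀ hs
    exact ⟨q.1, q.2, (hS q hq).1, (hS q hq).2.1, h1⟩

/-- **The orders of the poles of the topological zeta functions.** -/
theorem top_orders (B : Polynomial ℂ) (hB : IsBFunction f B) (hB0 : B ≠ 0)
    (Z : RatFunc ℂ) (hZ : IsTopZeta E ε (zetaId (fun _ : Fin 1 => f)) Z ∨
      IsTopZeta E ε (zetaJ (fun _ : Fin 1 => f)) Z) (s₀ : ℂ) :
    Z.denom.rootMultiplicity s₀ ≤ B.rootMultiplicity s₀ := by
  by_cases hs : Z.denom.eval s₀ = 0
  swap
  · rw [Polynomial.rootMultiplicity_eq_zero hs]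
    exact Nat.zero_le _
  obtain ⟨a, b, ha, hb, rfl⟩ := pole_rat hd hf hf0 H E ε hε hE Z hZ s₀ hs
  obtain ⟨h1, h2⟩ := mot_order hd hf hf0 H ha hb B hB hB0
  rcases hZ with hZ | hZ
  · exact top_order E ε hε hE ha hb h1 Z hZ
  · exact top_order E ε hε hE ha hb h2 Z hZ

/-- **`b Z` is a polynomial.** -/
theorem top_q2 (B : Polynomial ℂ) (hB : IsBFunction f B)
    (Z : RatFunc ℂ) (hZ : IsTopZeta E ε (zetaId (fun _ : Fin 1 => f)) Z ∨
      IsTopZeta E ε (zetaJ (fun _ : Fin 1 => f)) Z) :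
    ∃ P : Polynomial ℂ, algebraMap (Polynomial ℂ) (RatFunc ℂ) B * Z =
      algebraMap (Polynomial ℂ) (RatFunc ℂ) P := by
  classical
  by_cases hB0 : B = 0
  · exact ⟨0, by rw [hB0, map_zero, zero_mul]⟩
  have h1 : Z.denom ∣ B := by
    refine (IsAlgClosed.dvd_iff_roots_le_roots (RatFunc.denom_ne_zero Z) hB0).2 ?_
    rw [Multiset.le_iff_count]
    intro s
    rw [Polynomial.count_roots, Polynomial.count_roots]
    exact top_orders hd hf hf0 H E ε hε hE B hB hB0 Z hZ s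
  obtain ⟨G, hG⟩ := h1
  refine ⟨G * Z.num, ?_⟩
  have h2 : algebraMap (Polynomial ℂ) (RatFunc ℂ) Z.denom ≠ 0 :=
    RatFunc.algebraMap_ne_zero (RatFunc.denom_ne_zero Z)
  conv_lhs => rw [← RatFunc.num_div_denom Z]
  rw [hG, map_mul, map_mul]
  field_simp

end Pool.Agent.H940.O
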